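import Mathlib

/-!
# Orbifold pairs `(P^n, D)` supported on hyperplanes in general position, orbifold rational curves

`P^1 = ℂ ∪ {∞}` is `Option ℂ` (`none` is `∞`); `P^n` is the set of non-zero vectors of
`Fin (n + 1) → ℂ` up to scaling.
-/

set_option autoImplicit false

namespace Pool.Agent.KS6_82.OU

open Polynomial

/-- A morphism `γ : P^1 → P^n` over `ℂ`, of degree `e`: the point `t` goes to
`[f 0 (t) : ... : f n (t)]`, where the `f i` are polynomials of degree at most `e` which have
no common zero in `ℂ` and do not all vanish at `∞` as forms of degree `e`.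
Every morphism `P^1 → P^n` has this form, and `γ^* O(1) = O(e)`. -/
structure RatCurve (n : ℕ) where
  e : ℕ
  f : Fin (n + 1) → ℂ[X]
  natDegree_le : ∀ i, (f i).natDegree ≤ e
  infty : ∃ i, (f i).coeff e ≠ 0
  finite : ∀ a : ℂ, ∃ i, (f i).eval a ≠ 0

namespace RatCurve

variable {n : ℕ}

/-- Homogeneous coordinates of the image of a point of `P^1`. -/
noncomputable def val (γ : RatCurve n) : Option ℂ → Fin (n + 1) → ℂ
  | some a => fun i => (γ.f i).eval a
  | none => fun i => (γ.f i).coeff γ.e

/-- The pull-back of the linear form `∑ i, ℓ i x_i`, in the affine coordinate. -/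
noncomputable def pull (γ : RatCurve n) (ℓ : Fin (n + 1) → ℂ) : ℂ[X] := ∑ i, C (ℓ i) * γ.f i

/-- The multiplicity `t_a` of the point `a` in the divisor `γ^* H = ∑ t_a a` of degree `e`,
where `H` is the hyperplane with equation `ℓ` (and `γ^* ℓ ≠ 0`). -/
noncomputable def ord (γ : RatCurve n) (ℓ : Fin (n + 1) → ℂ) : Option ℂ → ℕ
  | some a => (γ.pull ℓ).rootMultiplicity a
  | none => γ.e - (γ.pull ℓ).natDegree

/-- The curve passes through the point `[x]` of `P^n`. -/
def Through (γ : RatCurve n) (x : Fin (n + 1) → ℂ) : Prop := ∃ a, ∃ r : ℂ, r ≠ 0 ∧ γ.val a = r • x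

/-- `γ` is birational onto its image: it is injective outside a finite set. -/
def Birational (γ : RatCurve n) : Prop :=
  ∃ S : Set (Option ℂ), S.Finite ∧ ∀ a, a ∉ S → ∀ b, b ∉ S →
    (∃ r : ℂ, γ.val a = r • γ.val b) → a = b

end RatCurve

/-- A smooth orbifold pair `(P^n, D)`, `D = ∑ c j • H j`, where the `H j` are the hyperplanes with
equations `ℓ j`, in general position (any `n + 1` or fewer of the linear forms are linearly
independent; for `n ≥ 1` the hyperplanes are distinct and the support of `D` has simple normal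
crossings), with rational coefficients `0 < c j ≤ 1`. -/
structure HypOrbifold (n d : ℕ) where
  ℓ : Fin d → Fin (n + 1) → ℂ
  general : ∀ s : Finset (Fin d), s.card ≤ n + 1 → LinearIndependent ℂ (fun j : s => ℓ j)
  c : Fin d → ℚ
  c_pos : ∀ j, 0 < c j
  c_le_one : ∀ j, c j ≤ 1

/-- The multiplicity `m = 1 / (1 - c)` belonging to the coefficient `c = 1 - 1 / m` (so `m = ∞`
for `c = 1`, and `m = 1` for `c = 0`). -/
noncomputable def mult (c : ℚ) : ENNReal := (ENNReal.ofReal (1 - (c : ℝ)))⁻¹

/-- `P x` holds for a very general point `[x]` of `P^n`, that is, for every point outside a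
countable union of proper Zariski-closed subsets (each contained in the zero locus of a non-zero
homogeneous polynomial). -/
def VeryGeneral {n : ℕ} (P : (Fin (n + 1) → ℂ) → Prop) : Prop :=
  ∃ Z : ℕ → MvPolynomial (Fin (n + 1)) ℂ, (∀ k, Z k ≠ 0 ∧ ∃ m, (Z k).IsHomogeneous m) ∧
    ∀ x : Fin (n + 1) → ℂ, x ≠ 0 → (∀ k, MvPolynomial.eval x (Z k) ≠ 0) → P x

namespace HypOrbifold

variable {n d : ℕ}

/-- The degree of `K_{P^n} + D`, which is `-(n + 1) + ∑ c j`. The class `K_{P^n} + D` is
pseudo-effective exactly when this is `≥ 0`. -/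
def degKD (P : HypOrbifold n d) : ℚ := -(n + 1) + ∑ j, P.c j

/-- The set `γ⁻¹ (Supp D)`. -/
def preimage (P : HypOrbifold n d) (γ : RatCurve n) : Set (Option ℂ) :=
  {a | ∃ j, ∑ i, P.ℓ j i * γ.val a i = 0}

/-- The smallest multiplicity `m ≥ 1` with `t_{a,j} * m ≥ m_j` for all `j` such that
`γ a ∈ H j`, that is the maximum of `1` and of the numbers `m_j / t_{a,j}`: this gives the
smallest divisor `D_C` for which `γ` is an orbifold morphism. -/
noncomputable def multMin (P : HypOrbifold n d) (γ : RatCurve n) (a : Option ℂ) : ENNReal :=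
  max 1 (⨆ j, ⨆ (_ : ∑ i, P.ℓ j i * γ.val a i = 0), mult (P.c j) / (γ.ord (P.ℓ j) a : ENNReal))

/-- The minimum of the numbers `t_{a,j} * m_j` over all `j` such that `γ a ∈ H j` (the formula
printed in the problem file). -/
noncomputable def multLit (P : HypOrbifold n d) (γ : RatCurve n) (a : Option ℂ) : ENNReal :=
  ⨅ j, ⨅ (_ : ∑ i, P.ℓ j i * γ.val a i = 0), (γ.ord (P.ℓ j) a : ENNReal) * mult (P.c j)

/-- The degree of `K_{P^1} + D_C`, `D_C = ∑ (1 - 1 / m a) • a`, summed over the finite set
`γ⁻¹ (Supp D)`. -/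
noncomputable def degC (P : HypOrbifold n d) (γ : RatCurve n) (m : Option ℂ → ENNReal) : ℝ :=
  -2 + ∑ᶠ a ∈ P.preimage γ, (1 - ((m a)⁻¹).toReal)

/-- `(P^n, D)` is uniruled: through a very general point passes a curve `γ : P^1 → P^n`, birational
onto its image, not inside the support of `D`, with `deg (K_{P^1} + D_C) < 0`, where the orbifold
divisor `D_C` is given by the multiplicities `m γ a`. -/
def IsUniruledWith (P : HypOrbifold n d) (m : RatCurve n → Option ℂ → ENNReal) : Prop :=
  VeryGeneral fun x => ∃ γ : RatCurve n, 1 ≤ γ.e ∧ γ.Birational ∧ (∀ j, γ.pull (P.ℓ j) ≠ 0) ∧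
    P.degC γ (m γ) < 0 ∧ γ.Through x

/-- `(P^n, D)` is weakly uniruled: through a very general point passes a rational curve
(a `γ : P^1 → P^n`, birational onto its image) of negative degree with respect to
`K_{P^n} + D`. -/
def IsWeaklyUniruled (P : HypOrbifold n d) : Prop :=
  VeryGeneral fun x => ∃ γ : RatCurve n, 1 ≤ γ.e ∧ γ.Birational ∧ (γ.e : ℚ) * P.degKD < 0 ∧
    γ.Through x

end HypOrbifold

end Pool.Agent.KS6_82.OU
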