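import Mathlib
import Pool.Agent.KS6_82.OU.Defs

/-!
# Very general points of projective space
-/

set_option autoImplicit false

namespace Pool.Agent.KS6_82.OU

open MvPolynomial

variable {n : ℕ}

/-- The exponent of the homogenised monomial. -/
noncomputable def hex (N : ℕ) (m : Fin n →₀ ℕ) : Fin (n + 1) →₀ ℕ := Finsupp.cons (N - m.degree) m

theorem hex_inj {N : ℕ} {m m' : Fin n →₀ ℕ} (h : hex N m = hex N m') : m = m' := by
  have := congrArg Finsupp.tail h
  simpa [hex] using this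

/-- Homogenisation of a polynomial. -/
noncomputable def hz {K : Type} [Field K] [Algebra K ℂ] (q : MvPolynomial (Fin n) K) :
    MvPolynomial (Fin (n + 1)) ℂ :=
  ∑ m ∈ q.support, monomial (hex q.totalDegree m) (algebraMap K ℂ (q.coeff m))

variable {K : Type} [Field K] [Algebra K ℂ]

theorem hz_ne_zero {q : MvPolynomial (Fin n) K} (hq : q ≠ 0) : hz q ≠ 0 := by
  classical
  obtain ⟨m, hm⟩ := MvPolynomial.support_nonempty.2 hq
  intro h
  have h1 := congrArg (coeff (hex q.totalDegree m)) h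
  rw [hz, coeff_sum, Finset.sum_eq_single m] at h1
  · rw [coeff_monomial, if_pos rfl, coeff_zero, map_eq_zero] at h1
    exact mem_support_iff.1 hm h1
  · intro m' _ hne
    rw [coeff_monomial, if_neg]
    intro h2
    exact hne (hex_inj h2)
  · intro h2
    exact absurd hm h2

theorem deg_le {q : MvPolynomial (Fin n) K} {m : Fin n →₀ ℕ} (hm : m ∈ q.support) :
    m.degree ≤ q.totalDegree := by
  have := le_totalDegree hm
  simpa [Finsupp.degree_apply, Finsupp.sum] using this

theorem hz_homog (q : MvPolynomial (Fin n) K) : (hz q).IsHomogeneous q.totalDegree := by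
  apply IsHomogeneous.sum
  intro m hm
  apply isHomogeneous_monomial
  have h1 : m.degree ≤ q.totalDegree := deg_le hm
  have h2 : (hex q.totalDegree m).degree = (q.totalDegree - m.degree) + m.degree := by
    rw [hex, Finsupp.degree_eq_sum, Fin.sum_univ_succ]
    simp [Finsupp.degree_eq_sum]
  rw [h2]
  omega

theorem eval_hz (q : MvPolynomial (Fin n) K) {x : Fin (n + 1) → ℂ} (hx : x 0 ≠ 0) :
    eval x (hz q) = x 0 ^ q.totalDegree * aeval (fun i : Fin n => x i.succ / x 0) q := by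
  have hq : aeval (fun i : Fin n => x i.succ / x 0) q =
      ∑ m ∈ q.support, aeval (fun i : Fin n => x i.succ / x 0) (monomial m (coeff m q)) := by
    conv_lhs => rw [q.as_sum]
    rw [map_sum]
  rw [hq, hz, map_sum, Finset.mul_sum]
  refine Finset.sum_congr rfl fun m hm => ?_
  have h1 : m.degree ≤ q.totalDegree := deg_le hm
  rw [eval_monomial, aeval_monomial]
  rw [Finsupp.prod_fintype _ _ (by simp), Finsupp.prod_fintype _ _ (by simp),
    Fin.prod_univ_succ]
  simp only [hex, Finsupp.cons_zero, Finsupp.cons_succ]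
  obtain ⟨k, hk⟩ := Nat.exists_eq_add_of_le h1
  have h3 : x 0 ^ m.degree * ∏ i, (x i.succ / x 0) ^ m i = ∏ i, x (Fin.succ i) ^ m i := by
    rw [Finsupp.degree_eq_sum, ← Finset.prod_pow_eq_pow_sum, ← Finset.prod_mul_distrib]
    refine Finset.prod_congr rfl fun i _ => ?_
    rw [← mul_pow, mul_div_cancel₀ _ hx]
  rw [hk, Nat.add_sub_cancel_left, ← h3, pow_add]
  ring

/-- Very general points have algebraically independent affine coordinates over a given countable
field. -/
theorem exists_family (n : ℕ) (K : Type) [Field K] [Algebra K ℂ] [Countable K] :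
    ∃ Z : ℕ → MvPolynomial (Fin (n + 1)) ℂ, (∀ k, Z k ≠ 0 ∧ ∃ m, (Z k).IsHomogeneous m) ∧
    ∀ x : Fin (n + 1) → ℂ, x ≠ 0 → (∀ k, MvPolynomial.eval x (Z k) ≠ 0) →
      x 0 ≠ 0 ∧ AlgebraicIndependent K (fun i : Fin n => x i.succ / x 0) := by
  classical
  have hcount : Countable (MvPolynomial (Fin n) K) := by
    rw [← Cardinal.mk_le_aleph0_iff]
    refine (MvPolynomial.cardinalMk_le_max (σ := Fin n) (R := K)).trans ?_
    exact max_le (max_le Cardinal.mk_le_aleph0 Cardinal.mk_le_aleph0) le_rfl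
  let S : Set (MvPolynomial (Fin (n + 1)) ℂ) :=
    {Z | ∃ q : MvPolynomial (Fin n) K, q ≠ 0 ∧ Z = hz q} ∪ {X 0}
  have hS : S.Countable := by
    refine Set.Countable.union ?_ (Set.countable_singleton _)
    refine (Set.countable_range (fun q : MvPolynomial (Fin n) K => hz q)).mono ?_
    rintro Z ⟨q, _, rfl⟩
    exact ⟨q, rfl⟩
  have hne : S.Nonempty := ⟨X 0, Or.inr rfl⟩
  obtain ⟨Z, hZ⟩ := hS.exists_eq_range hne
  refine ⟨Z, ?_, ?_⟩
  · intro n
    have h1 : Z n ∈ S := hZ ▸ ⟨n, rfl⟩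
    rcases h1 with ⟨q, hq, h2⟩ | h2
    · rw [h2]
      exact ⟨hz_ne_zero hq, _, hz_homog q⟩
    · have h3 : Z n = X 0 := h2
      rw [h3]
      exact ⟨X_ne_zero _, 1, isHomogeneous_X _ _⟩
  · intro x _ hx
    have hx0 : x 0 ≠ 0 := by
      have h1 : (X 0 : MvPolynomial (Fin (n + 1)) ℂ) ∈ Set.range Z := hZ ▸ Or.inr rfl
      obtain ⟨n, hn⟩ := h1
      have := hx n
      rw [hn, eval_X] at this
      exact this
    refine ⟨hx0, ?_⟩
    rw [algebraicIndependent_iff]
    intro q hq0
    by_contra hq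
    have h1 : hz q ∈ Set.range Z := hZ ▸ Or.inl ⟨q, hq, rfl⟩
    obtain ⟨n, hn⟩ := h1
    apply hx n
    rw [hn, eval_hz q hx0, hq0, mul_zero]

/-- Countably many non-zero polynomials have a common non-zero. -/
theorem exists_avoid (W : ℕ → MvPolynomial (Fin (n + 1)) ℂ) (h : ∀ n, W n ≠ 0) :
    ∃ x : Fin (n + 1) → ℂ, x ≠ 0 ∧ ∀ n, MvPolynomial.eval x (W n) ≠ 0 := by
  have hd : ∀ p : MvPolynomial (Fin (n + 1)) ℂ, p ≠ 0 →
      Dense {x : Fin (n + 1) → ℂ | eval x p ≠ 0} := by
    intro p hp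
    rw [dense_iff_inter_open]
    intro U hU ⟨y, hy⟩
    by_contra hcon
    rw [Set.not_nonempty_iff_eq_empty, Set.eq_empty_iff_forall_notMem] at hcon
    obtain ⟨ε, hε, hball⟩ := Metric.isOpen_iff.1 hU y hy
    apply hp
    refine MvPolynomial.funext_set (fun i => Metric.ball (y i) ε) (fun i => ?_) ?_
    · exact infinite_of_mem_nhds (y i) (Metric.ball_mem_nhds _ hε)
    · intro x hx
      rw [map_zero]
      by_contra hne
      refine hcon x ⟨hball ?_, hne⟩
      rw [ball_pi _ hε]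
      exact hx
  have ho : ∀ p : MvPolynomial (Fin (n + 1)) ℂ, IsOpen {x : Fin (n + 1) → ℂ | eval x p ≠ 0} := by
    intro p
    exact isOpen_ne_fun (MvPolynomial.continuous_eval p) continuous_const
  have h1 : ∀ n, W n * X 0 ≠ 0 := fun n => mul_ne_zero (h n) (X_ne_zero _)
  obtain ⟨x, hx⟩ := (dense_iInter_of_isOpen_nat (fun n => ho _) (fun n => hd _ (h1 n))).nonempty
  rw [Set.mem_iInter] at hx
  have h2 : ∀ n, eval x (W n) * x 0 ≠ 0 := by
    intro n
    have := hx n
    simpa using this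
  refine ⟨x, ?_, fun n => left_ne_zero_of_mul (h2 n)⟩
  intro h0
  exact right_ne_zero_of_mul (h2 0) (by rw [h0]; rfl)

/-- Two properties which hold for very general points hold for a common point. -/
theorem VeryGeneral.exists_common {P Q : (Fin (n + 1) → ℂ) → Prop} (hP : VeryGeneral P)
    (hQ : VeryGeneral Q) : ∃ x, x ≠ 0 ∧ P x ∧ Q x := by
  obtain ⟨Z, hZ, h1⟩ := hP
  obtain ⟨W, hW, h2⟩ := hQ
  obtain ⟨x, hx, h3⟩ := exists_avoid (fun n => Z n * W n) (fun n => mul_ne_zero (hZ n).1 (hW n).1)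
  refine ⟨x, hx, h1 x hx fun n => ?_, h2 x hx fun n => ?_⟩
  · have := h3 n
    rw [map_mul] at this
    exact left_ne_zero_of_mul this
  · have := h3 n
    rw [map_mul] at this
    exact right_ne_zero_of_mul this

/-- finitely many non-zero linear forms do not vanish at a very general point -/
theorem veryGeneral_forms {ι : Type} [Finite ι] (m : ι → Fin (n + 1) → ℂ) (hm : ∀ j, m j ≠ 0)
    {Q : (Fin (n + 1) → ℂ) → Prop}
    (hQ : ∀ x, x ≠ 0 → (∀ j, ∑ i, m j i * x i ≠ 0) → Q x) :
    VeryGeneral Q := by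
  classical
  obtain ⟨N, ⟨e⟩⟩ := Finite.exists_equiv_fin ι
  let Z : ℕ → MvPolynomial (Fin (n + 1)) ℂ := fun k =>
    if h : k < N then ∑ i, MvPolynomial.C (m (e.symm ⟨k, h⟩) i) * MvPolynomial.X i else 1
  refine ⟨Z, fun k => ?_, fun x hx hZ => hQ x hx fun j => ?_⟩
  · by_cases h : k < N
    · have h1 : Z k = ∑ i, MvPolynomial.C (m (e.symm ⟨k, h⟩) i) * MvPolynomial.X i := dif_pos h
      rw [h1]
      refine ⟨?_, 1, ?_⟩
      · obtain ⟨i, hi⟩ := Function.ne_iff.1 (hm (e.symm ⟨k, h⟩))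
        intro h0
        apply hi
        have h2 := congrArg (MvPolynomial.eval (Pi.single i (1 : ℂ))) h0
        rw [map_sum, map_zero] at h2
        simp only [map_mul, MvPolynomial.eval_C, MvPolynomial.eval_X, Pi.single_apply, mul_ite,
          mul_one, mul_zero, Finset.sum_ite_eq', Finset.mem_univ, if_true] at h2
        exact h2
      · refine MvPolynomial.IsHomogeneous.sum _ _ _ fun i _ => ?_
        have h2 := (MvPolynomial.isHomogeneous_C (Fin (n + 1)) (m (e.symm ⟨k, h⟩) i)).mul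
          (MvPolynomial.isHomogeneous_X ℂ i)
        simpa using h2
    · have h1 : Z k = 1 := dif_neg h
      rw [h1]
      exact ⟨one_ne_zero, 0, MvPolynomial.isHomogeneous_one _ _⟩
  · have h1 := hZ (e j)
    have h2 : Z (e j) = ∑ i, MvPolynomial.C (m j i) * MvPolynomial.X i := by
      have h3 : Z (e j) = ∑ i, MvPolynomial.C (m (e.symm ⟨(e j : ℕ), (e j).2⟩) i) *
          MvPolynomial.X i := dif_pos (e j).2
      rw [h3]
      simp
    rw [h2, map_sum] at h1
    simpa using h1

theorem VeryGeneral.mono {P Q : (Fin (n + 1) → ℂ) → Prop} (hP : VeryGeneral P)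
    (h : ∀ x, x ≠ 0 → P x → Q x) : VeryGeneral Q := by
  obtain ⟨Z, hZ, h1⟩ := hP
  exact ⟨Z, hZ, fun x hx hn => h x hx (h1 x hx hn)⟩

end Pool.Agent.KS6_82.OU
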