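import Mathlib
import Pool.Agent.KS6_82.OU.Defs

/-!
# A Wronskian-type determinant attached to a polynomial curve and derivations of the constants
-/

set_option autoImplicit false

namespace Pool.Agent.KS6_82.OU

open Polynomial

section det

variable {R : Type*} [CommRing R] {N : ℕ}

theorem det_col {A B : Matrix (Fin N) (Fin N) R} (c : Fin N → R) (k : Fin N) (hk : c k = 0)
    (h : ∀ i j, A i j = B i j + c j * B i k) : A.det = B.det := by
  rw [← Matrix.det_transpose A, ← Matrix.det_transpose B]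
  exact Matrix.det_eq_of_forall_row_eq_smul_add_const c k hk (fun i j => h j i)

theorem pow_dvd_det (M : Matrix (Fin N) (Fin N) R) (π : R) (p : Fin N → ℕ) (c : Fin N)
    (h : ∀ i j, j ≠ c → π ^ p i ∣ M i j) (h' : ∀ i, π ^ (p i - 1) ∣ M i c) :
    π ^ (∑ i, p i - 1) ∣ M.det := by
  classical
  rw [Matrix.det_apply']
  refine Finset.dvd_sum fun σ _ => ?_
  refine Dvd.dvd.mul_left ?_ _
  have h1 : ∏ j, π ^ (if j = c then p (σ j) - 1 else p (σ j)) ∣ ∏ j, M (σ j) j := by
    refine Finset.prod_dvd_prod_of_dvd _ _ fun j _ => ?_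
    split_ifs with hj
    · rw [hj]
      exact h' _
    · exact h _ _ hj
  rw [Finset.prod_pow_eq_pow_sum] at h1
  refine (pow_dvd_pow _ ?_).trans h1
  have h2 : ∑ i, p i = ∑ j, p (σ j) := (Equiv.sum_comp σ p).symm
  rw [h2]
  have h3 : ∑ j, p (σ j) ≤ ∑ j, (if j = c then p (σ j) - 1 else p (σ j)) + 1 := by
    rw [← Finset.add_sum_erase _ _ (Finset.mem_univ c), ← Finset.add_sum_erase _
      (fun j => if j = c then p (σ j) - 1 else p (σ j)) (Finset.mem_univ c), if_pos rfl]
    have h4 : ∑ j ∈ Finset.univ.erase c, (if j = c then p (σ j) - 1 else p (σ j)) =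
        ∑ j ∈ Finset.univ.erase c, p (σ j) :=
      Finset.sum_congr rfl fun j hj => if_neg (Finset.ne_of_mem_erase hj)
    rw [h4]
    omega
  omega

theorem natDegree_det_le_col (M : Matrix (Fin N) (Fin N) R[X]) (b : Fin N → ℕ)
    (h : ∀ i j, (M i j).natDegree ≤ b j) : M.det.natDegree ≤ ∑ j, b j := by
  classical
  rw [Matrix.det_apply]
  refine natDegree_sum_le_of_forall_le _ _ fun σ _ => ?_
  refine (natDegree_smul_le _ _).trans ?_
  refine (natDegree_prod_le _ _).trans ?_
  exact Finset.sum_le_sum fun j _ => h _ _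

theorem natDegree_det_le_row (M : Matrix (Fin N) (Fin N) R[X]) (b : Fin N → ℕ)
    (h : ∀ i j, (M i j).natDegree ≤ b i) : M.det.natDegree ≤ ∑ j, b j := by
  rw [← Matrix.det_transpose]
  exact natDegree_det_le_col _ _ fun i j => h j i

theorem coeff_prod_le {ι : Type*} (s : Finset ι) (g : ι → R[X]) (b : ι → ℕ)
    (h : ∀ i ∈ s, (g i).natDegree ≤ b i) :
    (∏ i ∈ s, g i).coeff (∑ i ∈ s, b i) = ∏ i ∈ s, (g i).coeff (b i) := by
  classical
  induction s using Finset.induction_on with
  | empty => simp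
  | insert a s ha ih =>
    rw [Finset.prod_insert ha, Finset.sum_insert ha, Finset.prod_insert ha,
      coeff_mul_add_eq_of_natDegree_le (h a (Finset.mem_insert_self _ _)),
      ih fun i hi => h i (Finset.mem_insert_of_mem hi)]
    refine (natDegree_prod_le _ _).trans ?_
    exact Finset.sum_le_sum fun j hj => h _ (Finset.mem_insert_of_mem hj)

theorem coeff_det_col (M : Matrix (Fin N) (Fin N) R[X]) (b : Fin N → ℕ)
    (h : ∀ i j, (M i j).natDegree ≤ b j) :
    M.det.coeff (∑ j, b j) = (Matrix.of fun i j => (M i j).coeff (b j)).det := by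
  classical
  rw [Matrix.det_apply, Matrix.det_apply, finsetSum_coeff]
  refine Finset.sum_congr rfl fun σ _ => ?_
  rw [coeff_smul, coeff_prod_le _ _ _ fun j _ => h _ _]
  rfl

/-- elimination of the first column -/
theorem det_elim (M : Matrix (Fin (N + 1)) (Fin (N + 1)) R) :
    M 0 0 ^ N * M.det = M 0 0 *
      (Matrix.of fun i j : Fin N => M 0 0 * M i.succ j.succ - M i.succ 0 * M 0 j.succ).det := by
  classical
  let A : Matrix (Fin (N + 1)) (Fin (N + 1)) R := Matrix.of fun i j =>
    Fin.cases (if j = 0 then 1 else 0)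
      (fun i' => if j = 0 then - M i'.succ 0 else if j = i'.succ then M 0 0 else 0) i
  have hA0 : ∀ j, A 0 j = if j = 0 then 1 else 0 := fun j => rfl
  have hAs : ∀ (i : Fin N) j, A i.succ j =
      if j = 0 then - M i.succ 0 else if j = i.succ then M 0 0 else 0 := fun i j => rfl
  have hdetA : A.det = M 0 0 ^ N := by
    rw [Matrix.det_succ_row_zero, Finset.sum_eq_single 0]
    · have h1 : A.submatrix Fin.succ (Fin.succAbove 0) = Matrix.diagonal fun _ => M 0 0 := by
        ext i j
        rw [Matrix.submatrix_apply, Fin.succAbove_zero, hAs, if_neg (Fin.succ_ne_zero _),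
          Matrix.diagonal_apply]
        by_cases hij : i = j
        · rw [if_pos (by rw [hij]), if_pos hij]
        · rw [if_neg (fun h => hij (Fin.succ_injective _ h).symm), if_neg hij]
      rw [h1, Matrix.det_diagonal, hA0]
      simp
    · intro j _ hj
      rw [hA0, if_neg hj]
      simp
    · intro h
      exact absurd (Finset.mem_univ _) h
  have hAM0 : ∀ j, (A * M) 0 j = M 0 j := by
    intro j
    rw [Matrix.mul_apply, Finset.sum_eq_single 0]
    · rw [hA0, if_pos rfl, one_mul]
    · intro k _ hk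
      rw [hA0, if_neg hk, zero_mul]
    · intro h
      exact absurd (Finset.mem_univ _) h
  have hAMs : ∀ (i : Fin N) j, (A * M) i.succ j = M 0 0 * M i.succ j - M i.succ 0 * M 0 j := by
    intro i j
    rw [Matrix.mul_apply, Fin.sum_univ_succ, Finset.sum_eq_single i]
    · rw [hAs, if_pos rfl, hAs, if_neg (Fin.succ_ne_zero _), if_pos rfl]
      ring
    · intro k _ hk
      rw [hAs, if_neg (Fin.succ_ne_zero _), if_neg (fun h => hk (Fin.succ_injective _ h)),
        zero_mul]
    · intro h
      exact absurd (Finset.mem_univ _) h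
  have h1 : (A * M).det = M 0 0 *
      (Matrix.of fun i j : Fin N => M 0 0 * M i.succ j.succ - M i.succ 0 * M 0 j.succ).det := by
    rw [Matrix.det_succ_column_zero, Finset.sum_eq_single 0]
    · rw [hAM0]
      have h2 : (A * M).submatrix (Fin.succAbove 0) Fin.succ =
          Matrix.of fun i j : Fin N => M 0 0 * M i.succ j.succ - M i.succ 0 * M 0 j.succ := by
        ext i j
        rw [Matrix.submatrix_apply, Fin.succAbove_zero, hAMs]
        rfl
      rw [h2]
      simp
    · intro j _ hj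
      obtain ⟨k, rfl⟩ := Fin.exists_succ_eq.2 hj
      rw [hAMs]
      have : M 0 0 * M k.succ 0 - M k.succ 0 * M 0 0 = 0 := by ring
      rw [this]
      simp
    · intro h
      exact absurd (Finset.mem_univ _) h
  rw [← h1, Matrix.det_mul, hdetA]

end det

section der

variable {K : Type} [Field K] [Algebra K ℂ]

/-- A derivation over a subfield gives a differential structure on the complex numbers. -/
@[instance_reducible] noncomputable def diffOf (D : Derivation K ℂ ℂ) :
    Differential ℂ := ⟨{ D.toLinearMap.toAddMonoidHom.toIntLinearMap with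
      map_one_eq_zero' := by simp
      leibniz' := fun a b => D.leibniz a b }⟩

/-- The coefficientwise derivation. -/
noncomputable def dd (D : Derivation K ℂ ℂ) : Derivation ℤ ℂ[X] ℂ[X] :=
  @Differential.mapCoeffs ℂ _ (diffOf D)

theorem coeff_dd (D : Derivation K ℂ ℂ) (g : ℂ[X]) (n : ℕ) : (dd D g).coeff n = D (g.coeff n) :=
  @Differential.coeff_mapCoeffs ℂ _ (diffOf D) g n

theorem dd_C (D : Derivation K ℂ ℂ) (a : ℂ) : dd D (C a) = C (D a) :=
  @Differential.mapCoeffs_C ℂ _ (diffOf D) a

theorem dd_X (D : Derivation K ℂ ℂ) : dd D X = 0 :=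
  @Differential.mapCoeffs_X ℂ _ (diffOf D)

theorem dd_monomial (D : Derivation K ℂ ℂ) (n : ℕ) (a : ℂ) :
    dd D (monomial n a) = monomial n (D a) :=
  @Differential.mapCoeffs_monomial ℂ _ (diffOf D) n a

theorem natDegree_dd_le (D : Derivation K ℂ ℂ) (g : ℂ[X]) : (dd D g).natDegree ≤ g.natDegree := by
  rw [natDegree_le_iff_coeff_eq_zero]
  intro N hN
  rw [coeff_dd, coeff_eq_zero_of_natDegree_lt hN, map_zero]

/-- The derivation `δ + δ(a) d/dX`, which commutes with evaluation at `a`. -/
noncomputable def da (D : Derivation K ℂ ℂ) (a : ℂ) (g : ℂ[X]) : ℂ[X] :=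
  dd D g + C (D a) * derivative g

theorem dvd_da (D : Derivation K ℂ ℂ) {a : ℂ} {n : ℕ} {g : ℂ[X]} (h : (X - C a) ^ n ∣ g) :
    (X - C a) ^ n ∣ da D a g := by
  obtain ⟨u, rfl⟩ := h
  have h1 : dd D (X - C a) = - C (D a) := by rw [map_sub, dd_X, dd_C, zero_sub]
  have h2 : dd D ((X - C a) ^ n) = - (C (D a) * derivative ((X - C a) ^ n)) := by
    rw [Derivation.leibniz_pow, h1, derivative_X_sub_C_pow]
    simp only [smul_eq_mul, nsmul_eq_mul]
    rw [← C_eq_natCast]
    ring
  refine ⟨da D a u, ?_⟩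
  simp only [da, Derivation.leibniz, derivative_mul, smul_eq_mul, h2]
  ring

theorem dvd_derivative' {a : ℂ} {n : ℕ} {g : ℂ[X]} (h : (X - C a) ^ n ∣ g) :
    (X - C a) ^ (n - 1) ∣ derivative g := by
  obtain ⟨u, rfl⟩ := h
  rw [derivative_mul, derivative_X_sub_C_pow]
  refine dvd_add ?_ ?_
  · exact ((dvd_mul_left _ _).mul_right _)
  · exact (pow_dvd_pow _ (Nat.sub_le _ _)).mul_right _

theorem eval_da (D : Derivation K ℂ ℂ) (a : ℂ) (g : ℂ[X]) : eval a (da D a g) = D (eval a g) := by
  induction g using Polynomial.induction_on' with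
  | add p q hp hq =>
    simp only [da, map_add, mul_add, eval_add, eval_mul, eval_C] at *
    rw [← hp, ← hq]
    ring
  | monomial n b =>
    rw [da, dd_monomial]
    simp only [eval_add, eval_monomial, eval_mul, eval_C, derivative_monomial]
    rw [Derivation.leibniz, Derivation.leibniz_pow]
    simp only [smul_eq_mul, nsmul_eq_mul]
    ring

end der

section wr

variable {K : Type} [Field K] [Algebra K ℂ] {m : ℕ}

/-- The matrix with rows `g i, g i', D 0 (g i), ..., D (m - 1) (g i)`. -/
noncomputable def WM (D : Fin m → Derivation K ℂ ℂ) (g : Fin (m + 2) → ℂ[X]) :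
    Matrix (Fin (m + 2)) (Fin (m + 2)) ℂ[X] :=
  Matrix.of fun i => Fin.cons (g i) (Fin.cons (derivative (g i)) (fun k => dd (D k) (g i)))

theorem WM_zero (D : Fin m → Derivation K ℂ ℂ) (g : Fin (m + 2) → ℂ[X]) (i : Fin (m + 2)) :
    WM D g i 0 = g i := rfl

theorem WM_one (D : Fin m → Derivation K ℂ ℂ) (g : Fin (m + 2) → ℂ[X]) (i : Fin (m + 2)) :
    WM D g i (Fin.succ 0) = derivative (g i) := rfl

theorem WM_succ (D : Fin m → Derivation K ℂ ℂ) (g : Fin (m + 2) → ℂ[X]) (i : Fin (m + 2))
    (k : Fin m) : WM D g i k.succ.succ = dd (D k) (g i) := rfl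

/-- The determinant. -/
noncomputable def wr (D : Fin m → Derivation K ℂ ℂ) (g : Fin (m + 2) → ℂ[X]) : ℂ[X] :=
  (WM D g).det

/-- The same matrix with the derivations `da D a`. -/
noncomputable def WMa (D : Fin m → Derivation K ℂ ℂ) (a : ℂ) (g : Fin (m + 2) → ℂ[X]) :
    Matrix (Fin (m + 2)) (Fin (m + 2)) ℂ[X] :=
  Matrix.of fun i => Fin.cons (g i) (Fin.cons (derivative (g i)) (fun k => da (D k) a (g i)))

theorem wr_eq_a (D : Fin m → Derivation K ℂ ℂ) (a : ℂ) (g : Fin (m + 2) → ℂ[X]) :
    wr D g = (WMa D a g).det := by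
  symm
  refine det_col (Fin.cons 0 (Fin.cons 0 fun k => C (D k a))) (Fin.succ 0) rfl fun i j => ?_
  refine Fin.cases ?_ (fun j => Fin.cases ?_ (fun k => ?_) j) j
  · simp [WMa, WM]
  · simp [WMa, WM]
  · simp [WMa, WM, da]

theorem pow_dvd_wr (D : Fin m → Derivation K ℂ ℂ) {a : ℂ} {g : Fin (m + 2) → ℂ[X]}
    (p : Fin (m + 2) → ℕ) (h : ∀ i, (X - C a) ^ p i ∣ g i) :
    (X - C a) ^ (∑ i, p i - 1) ∣ wr D g := by
  rw [wr_eq_a D a]
  refine pow_dvd_det _ _ p (Fin.succ 0) (fun i j => ?_) (fun i => dvd_derivative' (h i))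
  refine Fin.cases ?_ (fun j => Fin.cases ?_ (fun k => ?_) j) j
  · intro _
    exact h i
  · intro hj
    exact absurd rfl hj
  · intro _
    exact dvd_da _ (h i)

theorem X_mul_wr (D : Fin m → Derivation K ℂ ℂ) (g : Fin (m + 2) → ℂ[X]) (e : ℂ) :
    X * wr D g = (Matrix.of fun i => (Fin.cons (g i) (Fin.cons (X * derivative (g i) - C e * g i)
      (fun k => dd (D k) (g i))) : Fin (m + 2) → ℂ[X])).det := by
  have h1 : X * wr D g = (Matrix.of fun i => (Fin.cons (g i) (Fin.cons (X * derivative (g i))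
      (fun k => dd (D k) (g i))) : Fin (m + 2) → ℂ[X])).det := by
    have h2 := Matrix.det_mul_row (Fin.cons 1 (Fin.cons X fun _ => 1) : Fin (m + 2) → ℂ[X])
      (WM D g)
    rw [Fin.prod_univ_succ, Fin.prod_univ_succ] at h2
    simp only [Fin.cons_zero, Fin.cons_succ, Finset.prod_const_one, one_mul, mul_one] at h2
    rw [wr, ← h2]
    congr 1
    ext1 i j
    refine Fin.cases ?_ (fun j => Fin.cases ?_ (fun k => ?_) j) j
    · simp [WM]
    · simp [WM]
    · simp [WM]
  rw [h1]
  symm
  refine det_col (Fin.cons 0 (Fin.cons (- C e) fun k => 0)) 0 rfl fun i j => ?_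
  refine Fin.cases ?_ (fun j => Fin.cases ?_ (fun k => ?_) j) j
  · simp
  · simp
    ring
  · simp

theorem natDegree_X_mul_derivative_le (g : ℂ[X]) :
    (X * derivative g).natDegree ≤ g.natDegree := by
  rw [natDegree_le_iff_coeff_eq_zero]
  intro N hN
  rcases N with _ | N
  · simp
  · rw [coeff_X_mul, coeff_derivative, coeff_eq_zero_of_natDegree_lt hN, zero_mul]

/-- The degree of the determinant when the coordinates have given degrees. -/
theorem natDegree_wr_le (D : Fin m → Derivation K ℂ ℂ) {g : Fin (m + 2) → ℂ[X]}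
    {b : Fin (m + 2) → ℕ} (h : ∀ i, (g i).natDegree ≤ b i) (hw : wr D g ≠ 0) :
    (wr D g).natDegree + 1 ≤ ∑ i, b i := by
  have h1 : (X * wr D g).natDegree = (wr D g).natDegree + 1 := by
    rw [natDegree_mul X_ne_zero hw, natDegree_X, add_comm]
  rw [← h1, X_mul_wr D g 0]
  refine natDegree_det_le_row _ _ fun i j => ?_
  refine Fin.cases ?_ (fun j => Fin.cases ?_ (fun k => ?_) j) j
  · exact h i
  · simp only [Matrix.of_apply, Fin.cons_succ, Fin.cons_zero, map_zero, zero_mul, sub_zero]
    exact (natDegree_X_mul_derivative_le _).trans (h i)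
  · exact (natDegree_dd_le _ _).trans (h i)

/-- The degree of the determinant in general. -/
theorem natDegree_wr_le' (D : Fin m → Derivation K ℂ ℂ) {g : Fin (m + 2) → ℂ[X]} {e : ℕ}
    (he : 1 ≤ e) (h : ∀ i, (g i).natDegree ≤ e) (hw : wr D g ≠ 0) :
    (wr D g).natDegree + 2 ≤ (m + 2) * e := by
  have h1 : (X * wr D g).natDegree = (wr D g).natDegree + 1 := by
    rw [natDegree_mul X_ne_zero hw, natDegree_X, add_comm]
  have hY : ∀ i, (X * derivative (g i) - C (e : ℂ) * g i).natDegree ≤ e - 1 := by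
    intro i
    rw [natDegree_le_iff_coeff_eq_zero]
    intro N hN
    rcases N with _ | N
    · omega
    · rw [coeff_sub, coeff_X_mul, coeff_derivative, coeff_C_mul]
      rcases (by omega : N + 1 = e ∨ e < N + 1) with h2 | h2
      · have : (e : ℂ) = N + 1 := by rw [← h2]; push_cast; ring
        rw [this]
        ring
      · rw [coeff_eq_zero_of_natDegree_lt ((h i).trans_lt h2)]
        ring
  have h3 : (X * wr D g).natDegree ≤ ∑ j : Fin (m + 2), (Fin.cons e (Fin.cons (e - 1) fun _ => e) :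
      Fin (m + 2) → ℕ) j := by
    rw [X_mul_wr D g e]
    refine natDegree_det_le_col _ _ fun i j => ?_
    refine Fin.cases ?_ (fun j => Fin.cases ?_ (fun k => ?_) j) j
    · exact h i
    · exact hY i
    · exact (natDegree_dd_le _ _).trans (h i)
  rw [Fin.sum_univ_succ, Fin.sum_univ_succ] at h3
  simp only [Fin.cons_zero, Fin.cons_succ, Finset.sum_const, Finset.card_univ, Fintype.card_fin,
    smul_eq_mul] at h3
  have h4 : (m + 2) * e = m * e + e + e := by ring
  omega

/-- Pull-back of a linear form. -/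
noncomputable def pl (f : Fin (m + 2) → ℂ[X]) (ℓ : Fin (m + 2) → ℂ) : ℂ[X] := ∑ i, C (ℓ i) * f i

/-- Change of coordinates. -/
theorem wr_pl (D : Fin m → Derivation K ℂ ℂ) (f : Fin (m + 2) → ℂ[X])
    (L : Fin (m + 2) → Fin (m + 2) → ℂ) (h : ∀ k i j, D k (L i j) = 0) :
    wr D (fun i => pl f (L i)) = C (Matrix.of L).det * wr D f := by
  have h1 : WM D (fun i => pl f (L i)) = (Matrix.of L).map C * WM D f := by
    refine Matrix.ext fun i j => ?_
    rw [Matrix.mul_apply]
    refine Fin.cases ?_ (fun j => Fin.cases ?_ (fun k => ?_) j) j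
    · rfl
    · simp only [WM_one, pl, derivative_sum, derivative_C_mul]
      rfl
    · simp only [WM_succ, pl, map_sum, Derivation.leibniz, dd_C, h, map_zero, mul_zero, add_zero,
        smul_eq_mul]
      rfl
  rw [wr, h1, Matrix.det_mul, wr]
  congr 1
  rw [RingHom.map_det]
  rfl

end wr

end Pool.Agent.KS6_82.OU
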