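import Mathlib
import Pool.Agent.KS6_82.OU.Wron
import Pool.Graph.R_seed8.H135R2.VS.Der
import Pool.Graph.R_seed8.H436R3.WronC

/-!
# Non-vanishing of the Wronskian-type determinant
-/

set_option autoImplicit false

namespace Pool.Agent.KS6_82.OU

open Polynomial

theorem det_complete_ne {N : ℕ} {P : Fin (N + 1) → ℂ} {i0 : Fin (N + 1)} (h : P i0 ≠ 0) {c : ℂ}
    (hc : c ≠ 0) :
    (Matrix.of fun i => (Fin.cons (P i) (fun k : Fin N => c * (if i = i0.succAbove k then 1 else 0)) :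
      Fin (N + 1) → ℂ)).det ≠ 0 := by
  classical
  intro hdet
  obtain ⟨y, hy, hy0⟩ := Matrix.exists_vecMul_eq_zero_iff.mpr hdet
  apply hy
  have h1 : ∀ k, y (i0.succAbove k) = 0 := by
    intro k
    have h2 := congrFun hy0 k.succ
    rw [Matrix.vecMul, dotProduct, Finset.sum_eq_single (i0.succAbove k)] at h2
    · simp only [Matrix.of_apply, Fin.cons_succ, if_true, mul_one, Pi.zero_apply] at h2
      exact (mul_eq_zero.1 h2).resolve_right hc
    · intro i _ hi
      simp only [Matrix.of_apply, Fin.cons_succ, if_neg hi, mul_zero]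
    · intro h
      exact absurd (Finset.mem_univ _) h
  have h2 : y i0 = 0 := by
    have h3 := congrFun hy0 0
    rw [Matrix.vecMul, dotProduct, Finset.sum_eq_single i0] at h3
    · simp only [Matrix.of_apply, Fin.cons_zero, Pi.zero_apply] at h3
      exact (mul_eq_zero.1 h3).resolve_right h
    · intro i _ hi
      obtain ⟨k, rfl⟩ := Fin.exists_succAbove_eq hi
      rw [h1, zero_mul]
    · intro h
      exact absurd (Finset.mem_univ _) h
  funext i
  by_cases hi : i = i0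
  · rw [hi, h2]
    rfl
  · obtain ⟨k, rfl⟩ := Fin.exists_succAbove_eq hi
    exact h1 k

variable {K : Type} [Field K] [Algebra K ℂ] {m : ℕ}

theorem lam_der (D : Derivation K ℂ ℂ) (lam x : ℂ) :
    lam * D (lam * x) - lam * x * D lam = lam ^ 2 * D x := by
  rw [Derivation.leibniz]
  simp only [smul_eq_mul]
  ring

/-- Non-vanishing, finite point. -/
theorem wr_ne_zero_fin (D : Fin m → Derivation K ℂ ℂ) {f : Fin (m + 2) → ℂ[X]} {a lam : ℂ}
    {y : Fin (m + 1) → ℂ} (hlam : lam ≠ 0)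
    (e0 : (f 0).eval a = lam) (e1 : ∀ i : Fin (m + 1), (f i.succ).eval a = lam * y i)
    {n : ℕ} {P : Fin (m + 1) → ℂ[X]}
    (hP : ∀ i : Fin (m + 1), f 0 * derivative (f i.succ) - f i.succ * derivative (f 0) =
      (X - C a) ^ n * P i)
    {i0 : Fin (m + 1)} (hi0 : (P i0).eval a ≠ 0)
    (hD : ∀ k i, D k (y i) = if i = i0.succAbove k then 1 else 0) : wr D f ≠ 0 := by
  intro h
  have hf0 : f 0 ≠ 0 := by
    intro h0
    rw [h0, eval_zero] at e0
    exact hlam e0.symm
  rw [wr_eq_a D a] at h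
  have h1 := det_elim (WMa D a f)
  rw [h, mul_zero] at h1
  have h00 : WMa D a f 0 0 = f 0 := rfl
  rw [h00] at h1
  have h2 := (mul_eq_zero.1 h1.symm).resolve_left hf0
  let N : Matrix (Fin (m + 1)) (Fin (m + 1)) ℂ[X] := Matrix.of fun i =>
    Fin.cons (P i) (fun k => f 0 * da (D k) a (f i.succ) - f i.succ * da (D k) a (f 0))
  have h3 := Matrix.det_mul_row (Fin.cons ((X - C a) ^ n) (fun _ => 1) : Fin (m + 1) → ℂ[X]) N
  have h4 : (Matrix.of fun i j : Fin (m + 1) => f 0 * WMa D a f i.succ j.succ -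
      WMa D a f i.succ 0 * WMa D a f 0 j.succ) = (Matrix.of fun i j =>
        (Fin.cons ((X - C a) ^ n) (fun _ => 1) : Fin (m + 1) → ℂ[X]) j * N i j) := by
    refine Matrix.ext fun i j => ?_
    refine Fin.cases ?_ (fun k => ?_) j
    · exact hP i
    · simp only [Matrix.of_apply, Fin.cons_succ, one_mul, N]
      rfl
  rw [h4, h3, Fin.prod_univ_succ] at h2
  simp only [Fin.cons_zero, Fin.cons_succ, Finset.prod_const_one, mul_one] at h2
  have h5 := (mul_eq_zero.1 h2).resolve_left (pow_ne_zero _ (X_sub_C_ne_zero a))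
  have h6 := congrArg (evalRingHom a) h5
  rw [RingHom.map_det, map_zero] at h6
  refine det_complete_ne (P := fun i => (P i).eval a) hi0 (pow_ne_zero 2 hlam) (Eq.trans ?_ h6)
  congr 1
  refine Matrix.ext fun i j => ?_
  refine Fin.cases ?_ (fun k => ?_) j
  · rfl
  · simp only [Matrix.of_apply, Fin.cons_succ, RingHom.mapMatrix_apply, Matrix.map_apply, N,
      coe_evalRingHom, eval_sub, eval_mul, eval_da, e0, e1]
    rw [lam_der, hD]

/-- Non-vanishing, point at infinity. -/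
theorem wr_ne_zero_inf (D : Fin m → Derivation K ℂ ℂ) {f : Fin (m + 2) → ℂ[X]} {e : ℕ} {lam : ℂ}
    {y : Fin (m + 1) → ℂ} (hlam : lam ≠ 0) (hd : ∀ i, (f i).natDegree ≤ e)
    (e0 : (f 0).coeff e = lam) (e1 : ∀ i : Fin (m + 1), (f i.succ).coeff e = lam * y i)
    {n : ℕ}
    (hP : ∀ i : Fin (m + 1),
      (f 0 * derivative (f i.succ) - f i.succ * derivative (f 0)).natDegree ≤ n)
    {i0 : Fin (m + 1)}
    (hi0 : (f 0 * derivative (f i0.succ) - f i0.succ * derivative (f 0)).coeff n ≠ 0)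
    (hD : ∀ k i, D k (y i) = if i = i0.succAbove k then 1 else 0) : wr D f ≠ 0 := by
  intro h
  have hf0 : f 0 ≠ 0 := by
    intro h0
    rw [h0, coeff_zero] at e0
    exact hlam e0.symm
  have h1 := det_elim (WM D f)
  have h0 : (WM D f).det = 0 := h
  rw [h0, mul_zero] at h1
  have h00 : WM D f 0 0 = f 0 := rfl
  rw [h00] at h1
  have h2 := (mul_eq_zero.1 h1.symm).resolve_left hf0
  have hM : ∀ i k, (dd (D k) (f i)).natDegree ≤ e := fun i k =>
    (natDegree_dd_le _ _).trans (hd i)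
  have h3 := coeff_det_col (Matrix.of fun i j : Fin (m + 1) => f 0 * WM D f i.succ j.succ -
      WM D f i.succ 0 * WM D f 0 j.succ) (Fin.cons n fun _ => e + e) (fun i j => by
    refine Fin.cases ?_ (fun k => ?_) j
    · exact hP i
    · exact (natDegree_sub_le _ _).trans (max_le (natDegree_mul_le_of_le (hd 0) (hM _ _))
        (natDegree_mul_le_of_le (hd _) (hM 0 _))))
  rw [h2, coeff_zero] at h3
  refine det_complete_ne
    (P := fun i => (f 0 * derivative (f i.succ) - f i.succ * derivative (f 0)).coeff n) hi0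
    (pow_ne_zero 2 hlam) (Eq.trans ?_ h3.symm)
  congr 1
  refine Matrix.ext fun i j => ?_
  refine Fin.cases ?_ (fun k => ?_) j
  · rfl
  · change _ = (f 0 * dd (D k) (f i.succ) - f i.succ * dd (D k) (f 0)).coeff (e + e)
    rw [coeff_sub, coeff_mul_add_eq_of_natDegree_le (hd 0) (hM _ _),
      coeff_mul_add_eq_of_natDegree_le (hd _) (hM 0 _), coeff_dd, coeff_dd, e0, e1, lam_der, hD]
    rfl

theorem exists_pow_mul {ι : Type} [Fintype ι] {a : ℂ} {w : ι → ℂ[X]} (h : ∃ i, w i ≠ 0) :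
    ∃ (n : ℕ) (P : ι → ℂ[X]), (∀ i, w i = (X - C a) ^ n * P i) ∧ ∃ i, (P i).eval a ≠ 0 := by
  classical
  obtain ⟨i0, h0, hmin⟩ := Finset.exists_min_image (Finset.univ.filter fun i => w i ≠ 0)
    (fun i => (w i).rootMultiplicity a) (by
      obtain ⟨i, hi⟩ := h
      exact ⟨i, by simpa using hi⟩)
  rw [Finset.mem_filter] at h0
  have hdvd : ∀ i, ∃ P, w i = (X - C a) ^ (w i0).rootMultiplicity a * P := by
    intro i
    by_cases hi : w i = 0
    · exact ⟨0, by rw [hi, mul_zero]⟩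
    · exact (pow_dvd_pow _ (hmin i (by simpa using hi))).trans (pow_rootMultiplicity_dvd _ _)
  choose P hP using hdvd
  refine ⟨_, P, hP, i0, fun hz => ?_⟩
  obtain ⟨Q, hQ⟩ := dvd_iff_isRoot.2 hz
  have h1 : (X - C a) ^ ((w i0).rootMultiplicity a + 1) ∣ w i0 := by
    refine ⟨Q, ?_⟩
    rw [pow_succ, mul_assoc, ← hQ]
    exact hP i0
  have h2 := (le_rootMultiplicity_iff h0.2).2 h1
  omega

theorem exists_coeff_ne {ι : Type} [Fintype ι] {w : ι → ℂ[X]} (h : ∃ i, w i ≠ 0) :
    ∃ n : ℕ, (∀ i, (w i).natDegree ≤ n) ∧ ∃ i, (w i).coeff n ≠ 0 := by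
  classical
  obtain ⟨i0, h0, hmax⟩ := Finset.exists_max_image (Finset.univ.filter fun i => w i ≠ 0)
    (fun i => (w i).natDegree) (by
      obtain ⟨i, hi⟩ := h
      exact ⟨i, by simpa using hi⟩)
  rw [Finset.mem_filter] at h0
  refine ⟨(w i0).natDegree, fun i => ?_, i0, leadingCoeff_ne_zero.2 h0.2⟩
  by_cases hi : w i = 0
  · rw [hi]
    simp
  · exact hmax i (by simpa using hi)

/-- A curve without base points of degree `e ≥ 1` has a non-zero first order Wronskian. -/
theorem exists_wronskian_ne {f : Fin (m + 1) → ℂ[X]} {e : ℕ} (he : 1 ≤ e)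
    (hinf : ∃ i, (f i).coeff e ≠ 0)
    (hfin : ∀ a : ℂ, ∃ i, (f i).eval a ≠ 0) (h0 : f 0 ≠ 0) :
    ∃ i : Fin m, f 0 * derivative (f i.succ) - f i.succ * derivative (f 0) ≠ 0 := by
  by_contra hcon
  push Not at hcon
  have hk : ∀ i : Fin m, ∃ k : ℂ, f i.succ = C k * f 0 := fun i =>
    Pool.Agent.H436R3.proportional_of_wronskian h0 (sub_eq_zero.1 (hcon i))
  choose k hk using hk
  have hd : (f 0).natDegree = 0 := by
    by_contra hd
    obtain ⟨a, ha⟩ := IsAlgClosed.exists_root (f 0) (by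
      intro h
      exact hd (natDegree_eq_of_degree_eq_some h))
    obtain ⟨i, hi⟩ := hfin a
    apply hi
    have ha' : eval a (f 0) = 0 := ha
    refine Fin.cases ha' (fun i => ?_) i
    simp [hk, ha']
  obtain ⟨i, hi⟩ := hinf
  apply hi
  have h3 : (f 0).coeff e = 0 := coeff_eq_zero_of_natDegree_lt (by omega)
  refine Fin.cases h3 (fun i => ?_) i
  simp [hk, h3]

/-- There are derivations killing `K` for which the determinant does not vanish. -/
theorem exists_derivation [CharZero K] (γ : RatCurve (m + 1))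
    (he : 1 ≤ γ.e) {x : Fin (m + 2) → ℂ} (hx0 : x 0 ≠ 0)
    (hx : AlgebraicIndependent K (fun i : Fin (m + 1) => x i.succ / x 0)) (hγ : γ.Through x) :
    ∃ D : Fin m → Derivation K ℂ ℂ, wr D γ.f ≠ 0 := by
  obtain ⟨a, r, hr, ha⟩ := hγ
  have v0 : γ.val a 0 = r * x 0 := by rw [ha]; rfl
  have v1 : ∀ i : Fin (m + 1), γ.val a i.succ = r * x 0 * (x i.succ / x 0) := by
    intro i
    rw [ha, mul_assoc, mul_div_cancel₀ _ hx0]; rfl
  have hlam : r * x 0 ≠ 0 := mul_ne_zero hr hx0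
  have hf0 : γ.f 0 ≠ 0 := by
    intro h0
    apply hlam
    rw [← v0]
    rcases a with _ | a
    · simp [RatCurve.val, h0]
    · simp [RatCurve.val, h0]
  have hW := exists_wronskian_ne he γ.infty γ.finite hf0
  have hder : ∀ i0 : Fin (m + 1), ∃ D : Fin m → Derivation K ℂ ℂ,
      ∀ k i, D k (x i.succ / x 0) = if i = i0.succAbove k then 1 else 0 := by
    intro i0
    have h1 : ∀ k : Fin m, ∃ D : Derivation K ℂ ℂ, ∀ i : Fin (m + 1),
        D (x i.succ / x 0) = if i = i0.succAbove k then 1 else 0 := fun k =>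
      Pool.Agent.H135R2.VS.exists_der hx _
    choose D hD using h1
    exact ⟨D, hD⟩
  rcases a with _ | a
  · obtain ⟨n, hn1, i0, hi0⟩ := exists_coeff_ne hW
    obtain ⟨D, hD⟩ := hder i0
    exact ⟨D, wr_ne_zero_inf D hlam γ.natDegree_le v0 v1 hn1 hi0 hD⟩
  · obtain ⟨n, P, hP, i0, hi0⟩ := exists_pow_mul (a := a) hW
    obtain ⟨D, hD⟩ := hder i0
    exact ⟨D, wr_ne_zero_fin D hlam v0 v1 hP hi0 hD⟩

end Pool.Agent.KS6_82.OU
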