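import Mathlib
import Pool.Agent.KS6_82.OU.WronB
import Pool.Agent.KS6_82.OU.VG

/-!
# Counting the points of a rational curve on hyperplanes in general position
-/

set_option autoImplicit false

namespace Pool.Agent.KS6_82.OU

open Polynomial

namespace RatCurve

variable {n : ℕ}

theorem natDegree_pull_le (γ : RatCurve n) (ℓ : Fin (n + 1) → ℂ) :
    (γ.pull ℓ).natDegree ≤ γ.e := by
  refine natDegree_sum_le_of_forall_le _ _ fun i _ => ?_
  exact (natDegree_C_mul_le _ _).trans (γ.natDegree_le i)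

theorem val_ne_zero (γ : RatCurve n) (a : Option ℂ) : γ.val a ≠ 0 := by
  intro h
  rcases a with _ | a
  · obtain ⟨i, hi⟩ := γ.infty
    exact hi (congrFun h i)
  · obtain ⟨i, hi⟩ := γ.finite a
    exact hi (congrFun h i)

theorem sum_val_some (γ : RatCurve n) (ℓ : Fin (n + 1) → ℂ) (a : ℂ) :
    ∑ i, ℓ i * γ.val (some a) i = (γ.pull ℓ).eval a := by
  simp [pull, val, eval_finsetSum]

theorem sum_val_none (γ : RatCurve n) (ℓ : Fin (n + 1) → ℂ) :
    ∑ i, ℓ i * γ.val none i = (γ.pull ℓ).coeff γ.e := by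
  simp [pull, val]

/-- `γ a` lies on the hyperplane as soon as the order is positive. -/
theorem sum_val_eq_zero (γ : RatCurve n) (ℓ : Fin (n + 1) → ℂ) (a : Option ℂ)
    (h : γ.ord ℓ a ≠ 0) : ∑ i, ℓ i * γ.val a i = 0 := by
  rcases a with _ | a
  · rw [sum_val_none]
    have h1 : γ.e - (γ.pull ℓ).natDegree ≠ 0 := h
    exact coeff_eq_zero_of_natDegree_lt (by omega)
  · rw [sum_val_some]
    have h1 : (γ.pull ℓ).rootMultiplicity a ≠ 0 := h
    exact (rootMultiplicity_pos' .. |>.1 (Nat.pos_of_ne_zero h1)).2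

theorem ord_ne_zero (γ : RatCurve n) {ℓ : Fin (n + 1) → ℂ} (hp : γ.pull ℓ ≠ 0) {a : Option ℂ}
    (h : ∑ i, ℓ i * γ.val a i = 0) : γ.ord ℓ a ≠ 0 := by
  rcases a with _ | a
  · rw [sum_val_none] at h
    have h1 := γ.natDegree_pull_le ℓ
    change γ.e - (γ.pull ℓ).natDegree ≠ 0
    intro h2
    have h3 : (γ.pull ℓ).natDegree = γ.e := by omega
    rw [← h3] at h
    exact hp (leadingCoeff_eq_zero.1 h)
  · rw [sum_val_some] at h
    change (γ.pull ℓ).rootMultiplicity a ≠ 0
    exact ((rootMultiplicity_pos hp).2 h).ne'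

end RatCurve

section

variable {n d : ℕ} {ℓ : Fin d → Fin (n + 1) → ℂ}

/-- `n + 1` of the linear forms have no common zero. -/
theorem common_zero
    (general : ∀ s : Finset (Fin d), s.card ≤ n + 1 → LinearIndependent ℂ (fun j : s => ℓ j))
    {J : Finset (Fin d)} (hJ : n + 1 ≤ J.card) {x : Fin (n + 1) → ℂ}
    (h : ∀ j ∈ J, ∑ i, ℓ j i * x i = 0) : x = 0 := by
  classical
  obtain ⟨B, hBJ, hB⟩ := Finset.exists_subset_card_eq hJ
  have h1 := general B hB.le
  let e : Fin (n + 1) ≃ B := (B.equivFinOfCardEq hB).symm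
  have h2 : LinearIndependent ℂ (Matrix.of fun k => ℓ (e k)).row := h1.comp e e.injective
  rw [Matrix.linearIndependent_rows_iff_isUnit, Matrix.isUnit_iff_isUnit_det] at h2
  refine Matrix.eq_zero_of_mulVec_eq_zero h2.ne_zero ?_
  funext k
  exact h _ (hBJ (e k).2)

open Classical in
/-- All points of `P^1` which may lie over one of the hyperplanes. -/
noncomputable def pts (ℓ : Fin d → Fin (n + 1) → ℂ) (γ : RatCurve n) : Finset (Option ℂ) :=
  Finset.insertNone (Finset.univ.biUnion fun j => (γ.pull (ℓ j)).roots.toFinset)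

theorem sum_ord_pts (γ : RatCurve n) (h : ∀ j, γ.pull (ℓ j) ≠ 0) (j : Fin d) :
    ∑ a ∈ pts ℓ γ, γ.ord (ℓ j) a = γ.e := by
  classical
  rw [pts, Finset.sum_insertNone]
  have h1 : ∑ a ∈ Finset.univ.biUnion fun j => (γ.pull (ℓ j)).roots.toFinset,
      γ.ord (ℓ j) (some a) = (γ.pull (ℓ j)).natDegree := by
    have h2 : ∑ a ∈ (γ.pull (ℓ j)).roots.toFinset, γ.ord (ℓ j) (some a) =
        ∑ a ∈ Finset.univ.biUnion fun j => (γ.pull (ℓ j)).roots.toFinset,
          γ.ord (ℓ j) (some a) := by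
      apply Finset.sum_subset
      · exact Finset.subset_biUnion_of_mem (fun j => (γ.pull (ℓ j)).roots.toFinset)
          (Finset.mem_univ j)
      · intro a _ ha
        rw [Multiset.mem_toFinset, mem_roots (h j)] at ha
        exact rootMultiplicity_eq_zero ha
    rw [← h2]
    have h3 : Multiset.card (γ.pull (ℓ j)).roots = (γ.pull (ℓ j)).natDegree :=
      (IsAlgClosed.splits (γ.pull (ℓ j))).natDegree_eq_card_roots.symm
    rw [← h3, ← Multiset.toFinset_sum_count_eq]
    refine Finset.sum_congr rfl fun a _ => ?_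
    rw [count_roots]
    rfl
  rw [h1]
  have h4 := γ.natDegree_pull_le (ℓ j)
  have h5 : γ.ord (ℓ j) none = γ.e - (γ.pull (ℓ j)).natDegree := rfl
  omega

theorem ord_le_e (γ : RatCurve n) (h : ∀ j, γ.pull (ℓ j) ≠ 0)
    (j : Fin d) {a : Option ℂ} (ha : a ∈ pts ℓ γ) : γ.ord (ℓ j) a ≤ γ.e := by
  rw [← sum_ord_pts γ h j]
  exact Finset.single_le_sum (f := fun a => γ.ord (ℓ j) a) (fun _ _ => Nat.zero_le _) ha

theorem mem_pts (γ : RatCurve n) (h : ∀ j, γ.pull (ℓ j) ≠ 0) {a : Option ℂ} {j : Fin d}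
    (ha : ∑ i, ℓ j i * γ.val a i = 0) : a ∈ pts ℓ γ := by
  classical
  rcases a with _ | a
  · simp [pts]
  · rw [RatCurve.sum_val_some] at ha
    simp only [pts, Finset.some_mem_insertNone, Finset.mem_biUnion, Finset.mem_univ, true_and,
      Multiset.mem_toFinset]
    exact ⟨j, (mem_roots (h j)).2 ha⟩

theorem preimage_eq (P : HypOrbifold n d) (γ : RatCurve n) (h : ∀ j, γ.pull (P.ℓ j) ≠ 0)
    [DecidablePred fun a => ∃ j, γ.ord (P.ℓ j) a ≠ 0] :
    P.preimage γ = ((pts P.ℓ γ).filter fun a => ∃ j, γ.ord (P.ℓ j) a ≠ 0 : Finset (Option ℂ)) := by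
  ext a
  simp only [HypOrbifold.preimage, Set.mem_ofPred_eq, Finset.coe_filter]
  constructor
  · rintro ⟨j, hj⟩
    exact ⟨mem_pts γ h hj, j, γ.ord_ne_zero (h j) hj⟩
  · rintro ⟨_, j, hj⟩
    exact ⟨j, γ.sum_val_eq_zero _ _ hj⟩

end

section

variable {m d : ℕ} {ℓ : Fin d → Fin (m + 2) → ℂ} {K : Type} [Field K] [Algebra K ℂ]

/-- A basis of linear forms containing all those which vanish at the point. -/
theorem exists_basis (hd : m + 2 ≤ d)
    (general : ∀ s : Finset (Fin d), s.card ≤ m + 2 → LinearIndependent ℂ (fun j : s => ℓ j))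
    (γ : RatCurve (m + 1)) (a : Option ℂ) :
    ∃ φ : Fin (m + 2) → Fin d, (Matrix.of fun k => ℓ (φ k)).det ≠ 0 ∧
      ∑ j, γ.ord (ℓ j) a = ∑ k, γ.ord (ℓ (φ k)) a := by
  classical
  let J : Finset (Fin d) := Finset.univ.filter fun j => γ.ord (ℓ j) a ≠ 0
  have hJ : J.card ≤ m + 2 := by
    by_contra hcon
    push Not at hcon
    refine γ.val_ne_zero a (common_zero general (J := J) (by omega) fun j hj => ?_)
    exact γ.sum_val_eq_zero _ _ (Finset.mem_filter.1 hj).2
  obtain ⟨B, hJB, hB⟩ := Finset.exists_superset_card_eq hJ (by simpa using hd)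
  let e : Fin (m + 2) ≃ B := (B.equivFinOfCardEq hB).symm
  refine ⟨fun k => e k, ?_, ?_⟩
  · have h2 : LinearIndependent ℂ (Matrix.of fun k => ℓ (e k)).row :=
      (general B hB.le).comp e e.injective
    rw [Matrix.linearIndependent_rows_iff_isUnit, Matrix.isUnit_iff_isUnit_det] at h2
    exact h2.ne_zero
  · rw [Equiv.sum_comp e fun b : B => γ.ord (ℓ b) a, Finset.sum_coe_sort B fun j => γ.ord (ℓ j) a]
    symm
    apply Finset.sum_subset (Finset.subset_univ _)
    intro j _ hj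
    by_contra h
    exact hj (hJB (by simpa [J] using h))

/-- The order of the determinant at a finite point. -/
theorem sum_ord_le_fin (hd : m + 2 ≤ d)
    (general : ∀ s : Finset (Fin d), s.card ≤ m + 2 → LinearIndependent ℂ (fun j : s => ℓ j))
    (D : Fin m → Derivation K ℂ ℂ) (hc : ∀ k j i, D k (ℓ j i) = 0) (γ : RatCurve (m + 1))
    (hw : wr D γ.f ≠ 0) (a : ℂ) :
    ∑ j, γ.ord (ℓ j) (some a) - 1 ≤ (wr D γ.f).rootMultiplicity a := by
  obtain ⟨φ, hφ, hs⟩ := exists_basis hd general γ (some a)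
  rw [hs]
  have h2 := wr_pl D γ.f (fun k => ℓ (φ k)) (fun k i j => hc _ _ _)
  have h3 := pow_dvd_wr D (a := a) (g := fun k => pl γ.f (ℓ (φ k)))
    (fun k => γ.ord (ℓ (φ k)) (some a)) (fun i => pow_rootMultiplicity_dvd _ _)
  rw [h2] at h3
  have h4 : IsUnit (C (Matrix.of fun k => ℓ (φ k)).det) := isUnit_C.2 hφ.isUnit
  rw [h4.dvd_mul_left] at h3
  exact (le_rootMultiplicity_iff hw).2 h3

/-- The degree of the determinant, with the point at infinity. -/
theorem sum_ord_le_inf (hd : m + 2 ≤ d)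
    (general : ∀ s : Finset (Fin d), s.card ≤ m + 2 → LinearIndependent ℂ (fun j : s => ℓ j))
    (D : Fin m → Derivation K ℂ ℂ) (hc : ∀ k j i, D k (ℓ j i) = 0) (γ : RatCurve (m + 1))
    (he : 1 ≤ γ.e) (hw : wr D γ.f ≠ 0) :
    (wr D γ.f).natDegree + (∑ j, γ.ord (ℓ j) none - 1) + 2 ≤ (m + 2) * γ.e := by
  have h0 := natDegree_wr_le' D he γ.natDegree_le hw
  rcases Nat.eq_zero_or_pos (∑ j, γ.ord (ℓ j) none) with hz | hz
  · omega
  obtain ⟨φ, hφ, hs⟩ := exists_basis hd general γ none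
  rw [hs] at hz ⊢
  have h2 := wr_pl D γ.f (fun k => ℓ (φ k)) (fun k i j => hc _ _ _)
  have h3 : wr D (fun k => pl γ.f (ℓ (φ k))) ≠ 0 := by
    rw [h2]
    exact mul_ne_zero (C_ne_zero.2 hφ) hw
  have h4 := natDegree_wr_le D (g := fun k => pl γ.f (ℓ (φ k)))
    (b := fun k => (γ.pull (ℓ (φ k))).natDegree) (fun k => le_rfl) h3
  rw [h2, natDegree_C_mul hφ] at h4
  have h5 : ∑ k, γ.ord (ℓ (φ k)) none + ∑ k, (γ.pull (ℓ (φ k))).natDegree = (m + 2) * γ.e := by
    rw [← Finset.sum_add_distrib]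
    calc _ = ∑ _k : Fin (m + 2), γ.e := by
          refine Finset.sum_congr rfl fun k _ => ?_
          have e1 : γ.ord (ℓ (φ k)) none = γ.e - (γ.pull (ℓ (φ k))).natDegree := rfl
          have n1 := γ.natDegree_pull_le (ℓ (φ k))
          omega
      _ = _ := by simp
  omega

theorem sum_sub_one_le (hd : m + 2 ≤ d)
    (general : ∀ s : Finset (Fin d), s.card ≤ m + 2 → LinearIndependent ℂ (fun j : s => ℓ j))
    (D : Fin m → Derivation K ℂ ℂ) (hc : ∀ k j i, D k (ℓ j i) = 0) (γ : RatCurve (m + 1))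
    (he : 1 ≤ γ.e) (hw : wr D γ.f ≠ 0) :
    ∑ a ∈ pts ℓ γ, (∑ j, γ.ord (ℓ j) a - 1) + 2 ≤ (m + 2) * γ.e := by
  classical
  rw [pts, Finset.sum_insertNone]
  have h1 : ∑ a ∈ Finset.univ.biUnion fun j => (γ.pull (ℓ j)).roots.toFinset,
      (∑ j, γ.ord (ℓ j) (some a) - 1) ≤ (wr D γ.f).natDegree := by
    calc _ ≤ ∑ a ∈ Finset.univ.biUnion fun j => (γ.pull (ℓ j)).roots.toFinset,
          (wr D γ.f).rootMultiplicity a :=
          Finset.sum_le_sum fun a _ => sum_ord_le_fin hd general D hc γ hw a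
      _ ≤ ∑ a ∈ (Finset.univ.biUnion fun j => (γ.pull (ℓ j)).roots.toFinset) ∪
          (wr D γ.f).roots.toFinset, (wr D γ.f).rootMultiplicity a :=
          Finset.sum_le_sum_of_subset Finset.subset_union_left
      _ = ∑ a ∈ (wr D γ.f).roots.toFinset, (wr D γ.f).rootMultiplicity a := by
          symm
          apply Finset.sum_subset Finset.subset_union_right
          intro a _ ha
          rw [Multiset.mem_toFinset, mem_roots hw] at ha
          exact rootMultiplicity_eq_zero ha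
      _ = Multiset.card (wr D γ.f).roots := by
          rw [← Multiset.toFinset_sum_count_eq]
          refine Finset.sum_congr rfl fun a _ => ?_
          rw [count_roots]
      _ ≤ (wr D γ.f).natDegree := card_roots' _
  have h2 := sum_ord_le_inf hd general D hc γ he hw
  omega

open Classical in
/-- The number of points of the curve on the hyperplanes. -/
theorem card_points (hd : m + 2 ≤ d)
    (general : ∀ s : Finset (Fin d), s.card ≤ m + 2 → LinearIndependent ℂ (fun j : s => ℓ j))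
    (D : Fin m → Derivation K ℂ ℂ) (hc : ∀ k j i, D k (ℓ j i) = 0) (γ : RatCurve (m + 1))
    (he : 1 ≤ γ.e) (hw : wr D γ.f ≠ 0)
    (h : ∀ j, γ.pull (ℓ j) ≠ 0) :
    d * γ.e + 2 ≤ (m + 2) * γ.e +
      ((pts ℓ γ).filter fun a => ∃ j, γ.ord (ℓ j) a ≠ 0).card := by
  have h1 := sum_sub_one_le hd general D hc γ he hw
  have h2 : ∑ a ∈ pts ℓ γ, ∑ j, γ.ord (ℓ j) a = d * γ.e := by
    rw [Finset.sum_comm, Finset.sum_congr rfl fun j _ => sum_ord_pts γ h j]
    simp
  have h3 : ∀ a ∈ pts ℓ γ, ∑ j, γ.ord (ℓ j) a ≤ (∑ j, γ.ord (ℓ j) a - 1) +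
      (if ∃ j, γ.ord (ℓ j) a ≠ 0 then 1 else 0) := by
    intro a _
    by_cases hT : ∑ j, γ.ord (ℓ j) a = 0
    · omega
    · have h5 : ∃ j, γ.ord (ℓ j) a ≠ 0 := by
        by_contra h6
        push Not at h6
        exact hT (Finset.sum_eq_zero fun j _ => h6 j)
      rw [if_pos h5]
      omega
  have h4 := Finset.sum_le_sum h3
  rw [Finset.sum_add_distrib, h2, ← Finset.card_filter] at h4
  omega

end

section

variable {n d : ℕ}

/-- The field generated by the coefficients of the hyperplanes. -/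
noncomputable def hypField (ℓ : Fin d → Fin (n + 1) → ℂ) : IntermediateField ℚ ℂ :=
  IntermediateField.adjoin ℚ (Set.range fun p : Fin d × Fin (n + 1) => ℓ p.1 p.2)

instance countable_hypField (ℓ : Fin d → Fin (n + 1) → ℂ) : Countable (hypField ℓ) := by
  have h1 : Cardinal.mk (hypField ℓ) ≤ Cardinal.aleph0 := by
    refine (Subfield.cardinalMk_closure_le_max _).trans (max_le ?_ le_rfl)
    rw [Cardinal.mk_le_aleph0_iff]
    exact ((Set.countable_range _).union (Set.countable_range _)).to_subtype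
  exact Cardinal.mk_le_aleph0_iff.1 h1

open Classical in
/-- The main estimate at very general points: a nonconstant rational curve of degree `e` through a
very general point, not inside any of the `d ≥ n + 1` hyperplanes, meets them in at least
`(d - n - 1) e + 2` points. -/
theorem veryGeneral_estimate (hn : 1 ≤ n) (hd : n + 1 ≤ d) {ℓ : Fin d → Fin (n + 1) → ℂ}
    (general : ∀ s : Finset (Fin d), s.card ≤ n + 1 → LinearIndependent ℂ (fun j : s => ℓ j)) :
    VeryGeneral fun x => ∀ γ : RatCurve n, 1 ≤ γ.e → (∀ j, γ.pull (ℓ j) ≠ 0) → γ.Through x →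
    d * γ.e + 2 ≤ (n + 1) * γ.e +
      ((pts ℓ γ).filter fun a => ∃ j, γ.ord (ℓ j) a ≠ 0).card := by
  obtain ⟨m, rfl⟩ := Nat.exists_eq_add_of_le' hn
  obtain ⟨Z, hZ, h1⟩ := exists_family (m + 1) (hypField ℓ)
  refine ⟨Z, hZ, fun x hx hn γ he h hγ => ?_⟩
  obtain ⟨hx0, hx1⟩ := h1 x hx hn
  obtain ⟨D, hD⟩ := exists_derivation γ he hx0 hx1 hγ
  refine card_points hd general D (fun k j i => ?_) γ he hD h
  exact (D k).map_algebraMap
    (⟨ℓ j i, IntermediateField.subset_adjoin _ _ ⟨(j, i), rfl⟩⟩ : hypField ℓ)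

end

end Pool.Agent.KS6_82.OU
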