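import Mathlib
import Pool.Agent.KS6_82.OU.Count

/-!
# Lower bounds for the degree of `K + D_C`
-/

set_option autoImplicit false

namespace Pool.Agent.KS6_82.OU

open Polynomial

theorem mult_mono {c r : ℚ} (h : c ≤ r) : mult c ≤ mult r := by
  rw [mult, mult, ENNReal.inv_le_inv]
  apply ENNReal.ofReal_le_ofReal
  have : (c : ℝ) ≤ r := by exact_mod_cast h
  linarith

theorem coeff_ge {c : ℚ} (hc : c ≤ 1) {m : ENNReal} (h : mult c ≤ m) :
    (c : ℝ) ≤ 1 - (m⁻¹).toReal := by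
  have h1 : m⁻¹ ≤ ENNReal.ofReal (1 - (c : ℝ)) := by
    rw [mult] at h
    exact ENNReal.inv_le_iff_inv_le.1 h
  have h2 : (m⁻¹).toReal ≤ 1 - (c : ℝ) := by
    have h3 : (0 : ℝ) ≤ 1 - c := by
      have : (c : ℝ) ≤ 1 := by exact_mod_cast hc
      linarith
    have := ENNReal.toReal_mono ENNReal.ofReal_ne_top h1
    rwa [ENNReal.toReal_ofReal h3] at this
  linarith

variable {n d : ℕ}

theorem cost_nonneg (P : HypOrbifold n d) (γ : RatCurve n) (a : Option ℂ) :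
    0 ≤ 1 - ((P.multMin γ a)⁻¹).toReal := by
  have h5 : mult 0 ≤ P.multMin γ a := by
    have : mult 0 = 1 := by simp [mult]
    rw [this]
    exact le_max_left _ _
  have := coeff_ge zero_le_one h5
  simpa using this

theorem cost_ge (P : HypOrbifold n d) (γ : RatCurve n) {a : Option ℂ} {j : Fin d}
    (haj : γ.ord (P.ℓ j) a ≠ 0) :
    1 - γ.ord (P.ℓ j) a * (1 - (P.c j : ℝ)) ≤ 1 - ((P.multMin γ a)⁻¹).toReal := by
  have hcj : (0 : ℝ) ≤ 1 - P.c j := by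
    have : (P.c j : ℝ) ≤ 1 := by exact_mod_cast P.c_le_one j
    linarith
  have h3 : mult (P.c j) / (γ.ord (P.ℓ j) a : ENNReal) ≤ P.multMin γ a := by
    refine le_trans ?_ (le_max_right _ _)
    refine le_iSup_of_le j (le_iSup_of_le (γ.sum_val_eq_zero _ _ haj) ?_)
    exact le_rfl
  have h4 : (P.multMin γ a)⁻¹ ≤ (γ.ord (P.ℓ j) a : ENNReal) *
      ENNReal.ofReal (1 - (P.c j : ℝ)) := by
    have h5 := ENNReal.inv_le_inv.2 h3
    refine h5.trans ?_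
    rw [ENNReal.inv_div (Or.inl (ENNReal.natCast_ne_top _)) (Or.inl (by exact_mod_cast haj)),
      mult, ENNReal.div_eq_inv_mul, inv_inv, mul_comm]
  rw [← ENNReal.ofReal_natCast, ← ENNReal.ofReal_mul (Nat.cast_nonneg _)] at h4
  have h5 := ENNReal.toReal_mono ENNReal.ofReal_ne_top h4
  rw [ENNReal.toReal_ofReal (mul_nonneg (Nat.cast_nonneg _) hcj)] at h5
  linarith

theorem cost_lit_ge (P : HypOrbifold n d) (γ : RatCurve n) (hγ : ∀ j, γ.pull (P.ℓ j) ≠ 0)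
    {c : ℚ} (hc1 : c ≤ 1) (hc : ∀ j, c ≤ P.c j) (a : Option ℂ) :
    (c : ℝ) ≤ 1 - ((P.multLit γ a)⁻¹).toReal := by
  apply coeff_ge hc1
  refine le_iInf fun j => le_iInf fun hj => ?_
  refine (mult_mono (hc j)).trans ?_
  have h6 : (1 : ENNReal) ≤ (γ.ord (P.ℓ j) a : ENNReal) := by
    have := Nat.one_le_iff_ne_zero.2 (γ.ord_ne_zero (hγ j) hj)
    exact_mod_cast this
  calc mult (P.c j) = 1 * mult (P.c j) := (one_mul _).symm
    _ ≤ _ := mul_le_mul_left h6 _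

open Classical in
/-- the set of the points over the hyperplanes -/
noncomputable def sup (P : HypOrbifold n d) (γ : RatCurve n) : Finset (Option ℂ) :=
  (pts P.ℓ γ).filter fun a => ∃ j, γ.ord (P.ℓ j) a ≠ 0

theorem degC_eq (P : HypOrbifold n d) (γ : RatCurve n) (h : ∀ j, γ.pull (P.ℓ j) ≠ 0)
    (m : Option ℂ → ENNReal) :
    P.degC γ m = -2 + ∑ a ∈ sup P γ, (1 - ((m a)⁻¹).toReal) := by
  classical
  rw [HypOrbifold.degC, preimage_eq P γ h, finsum_mem_coe_finset]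
  congr

theorem exists_t (P : HypOrbifold n d) (γ : RatCurve n) (h : ∀ j, γ.pull (P.ℓ j) ≠ 0) :
    ∃ t : Option ℂ → ℕ, (∀ a ∈ sup P γ, 1 ≤ t a ∧ t a ≤ γ.e ∧ ∃ j, γ.ord (P.ℓ j) a = t a) ∧
      ∑ a ∈ sup P γ, t a ≤ d * γ.e := by
  classical
  have h1 : ∀ a, ∃ t : ℕ, a ∈ sup P γ → 1 ≤ t ∧ t ≤ γ.e ∧ (∃ j, γ.ord (P.ℓ j) a = t) := by
    intro a
    by_cases ha : a ∈ sup P γ
    · have ha' := ha
      rw [sup, Finset.mem_filter] at ha'
      obtain ⟨hp, j, hj⟩ := ha'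
      exact ⟨γ.ord (P.ℓ j) a, fun _ => ⟨Nat.one_le_iff_ne_zero.2 hj, ord_le_e γ h j hp, j, rfl⟩⟩
    · exact ⟨0, fun h => absurd h ha⟩
  choose t ht using h1
  refine ⟨t, ht, ?_⟩
  calc ∑ a ∈ sup P γ, t a ≤ ∑ a ∈ sup P γ, ∑ j, γ.ord (P.ℓ j) a := by
        refine Finset.sum_le_sum fun a ha => ?_
        obtain ⟨_, _, j, hj⟩ := ht a ha
        rw [← hj]
        exact Finset.single_le_sum (f := fun j => γ.ord (P.ℓ j) a) (fun _ _ => Nat.zero_le _)
          (Finset.mem_univ j)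
    _ ≤ ∑ a ∈ pts P.ℓ γ, ∑ j, γ.ord (P.ℓ j) a :=
        Finset.sum_le_sum_of_subset (Finset.filter_subset _ _)
    _ = d * γ.e := by
        rw [Finset.sum_comm, Finset.sum_congr rfl fun j _ => sum_ord_pts γ h j]
        simp

/-- the bound for small degrees -/
theorem low_A (P : HypOrbifold n d) (γ : RatCurve n) (he : 1 ≤ γ.e)
    (h : ∀ j, γ.pull (P.ℓ j) ≠ 0) (hd : n + 1 ≤ d)
    (hest : d * γ.e + 2 ≤ (n + 1) * γ.e + (sup P γ).card) {u : ℝ} (hu : 0 ≤ u)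
    (hc : ∀ j, 1 - u ≤ P.c j) (hA : u * ((d - n - 1) * γ.e + 2) ≤ d - n - 1) :
    0 ≤ P.degC γ (P.multMin γ) := by
  rw [degC_eq P γ h]
  obtain ⟨t, ht, -⟩ := exists_t P γ h
  have hD : (0 : ℝ) ≤ d - n - 1 := by
    have : ((n + 1 : ℕ) : ℝ) ≤ d := by exact_mod_cast hd
    push_cast at this
    linarith
  have he' : (1 : ℝ) ≤ γ.e := by exact_mod_cast he
  have hue : u * γ.e ≤ 1 := by
    by_contra hcon
    push Not at hcon
    have h1 : (d - n - 1 : ℝ) * 1 ≤ (d - n - 1) * (u * γ.e) :=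
      mul_le_mul_of_nonneg_left hcon.le hD
    have h2 : u ≤ 0 := by nlinarith
    have h3 : u = 0 := le_antisymm h2 hu
    rw [h3, zero_mul] at hcon
    linarith
  have h1 : ∀ a ∈ sup P γ, 1 - u * γ.e ≤ 1 - ((P.multMin γ a)⁻¹).toReal := by
    intro a ha
    obtain ⟨h2, h3, j, hj⟩ := ht a ha
    have h4 := cost_ge P γ (a := a) (j := j) (by omega)
    rw [hj] at h4
    have h5 : (t a : ℝ) ≤ γ.e := by exact_mod_cast h3
    have h6 : (t a : ℝ) * (1 - (P.c j : ℝ)) ≤ γ.e * u := by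
      have h7 := hc j
      have h8 : (1 : ℝ) - P.c j ≤ u := by linarith
      exact mul_le_mul h5 h8 (by
        have : (P.c j : ℝ) ≤ 1 := by exact_mod_cast P.c_le_one j
        linarith) (Nat.cast_nonneg _)
    linarith
  have h2 := Finset.card_nsmul_le_sum _ _ _ h1
  rw [nsmul_eq_mul] at h2
  have h3 : (d : ℝ) * γ.e + 2 ≤ (n + 1) * γ.e + (sup P γ).card := by exact_mod_cast hest
  have h4 : ((d - n - 1) * γ.e + 2 : ℝ) ≤ (sup P γ).card := by linarith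
  have h5 : ((d - n - 1) * γ.e + 2 : ℝ) * (1 - u * γ.e) ≤ (sup P γ).card * (1 - u * γ.e) :=
    mul_le_mul_of_nonneg_right h4 (by linarith)
  have h6 : (γ.e : ℝ) * (u * ((d - n - 1) * γ.e + 2)) ≤ γ.e * (d - n - 1) :=
    mul_le_mul_of_nonneg_left hA (Nat.cast_nonneg _)
  nlinarith

/-- the bound for large degrees -/
theorem low_B (P : HypOrbifold n d) (γ : RatCurve n)
    (h : ∀ j, γ.pull (P.ℓ j) ≠ 0)
    (hest : d * γ.e + 2 ≤ (n + 1) * γ.e + (sup P γ).card) {u : ℝ}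
    (hc : ∀ j, 1 - u ≤ P.c j) {q : ℕ} (hq : u * q ≤ 1) (hq' : 1 ≤ u * (q + 1))
    (hB : 2 ≤ (1 - u * q) * ((q + 1) * ((d - n - 1) * γ.e + 2) - d * γ.e)) :
    0 ≤ P.degC γ (P.multMin γ) := by
  rw [degC_eq P γ h]
  obtain ⟨t, ht, hsum⟩ := exists_t P γ h
  have hu : 0 ≤ u := by
    by_contra hcon
    push Not at hcon
    have : (0 : ℝ) ≤ q + 1 := by positivity
    nlinarith
  have h1 : ∀ a ∈ sup P γ, (1 - u * q) * (q + 1 - t a) ≤ 1 - ((P.multMin γ a)⁻¹).toReal := by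
    intro a ha
    obtain ⟨h2, h3, j, hj⟩ := ht a ha
    have h4 := cost_ge P γ (a := a) (j := j) (by omega)
    rw [hj] at h4
    have h6 : (t a : ℝ) * (1 - (P.c j : ℝ)) ≤ t a * u := by
      have h7 := hc j
      exact mul_le_mul_of_nonneg_left (by linarith) (Nat.cast_nonneg _)
    rcases le_or_gt (t a) q with h7 | h7
    · have h8 : (t a : ℝ) ≤ q := by exact_mod_cast h7
      have h9 : 0 ≤ (q - t a : ℝ) * (u * (q + 1) - 1) :=
        mul_nonneg (by linarith) (by linarith)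
      nlinarith
    · have h8 : ((q + 1 : ℕ) : ℝ) ≤ t a := by exact_mod_cast h7
      push_cast at h8
      have h9 : (1 - u * q) * (q + 1 - t a) ≤ 0 :=
        mul_nonpos_of_nonneg_of_nonpos (by linarith) (by linarith)
      have h10 := cost_nonneg P γ a
      linarith
  have h2 := Finset.sum_le_sum h1
  rw [← Finset.mul_sum, Finset.sum_sub_distrib, Finset.sum_const, nsmul_eq_mul] at h2
  have h3 : (d : ℝ) * γ.e + 2 ≤ (n + 1) * γ.e + (sup P γ).card := by exact_mod_cast hest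
  have h4 : (∑ a ∈ sup P γ, (t a : ℝ)) ≤ d * γ.e := by exact_mod_cast hsum
  have h5 : ((q + 1) * ((d - n - 1) * γ.e + 2) - d * γ.e : ℝ) ≤
      (sup P γ).card * (q + 1) - ∑ a ∈ sup P γ, (t a : ℝ) := by
    have h6 : (0 : ℝ) ≤ q + 1 := by positivity
    nlinarith
  have h6 := mul_le_mul_of_nonneg_left h5 (by linarith : (0 : ℝ) ≤ 1 - u * q)
  linarith

/-- the bound if `K + D` is pseudo-effective -/
theorem low_psef (P : HypOrbifold n d) (γ : RatCurve n)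
    (h : ∀ j, γ.pull (P.ℓ j) ≠ 0)
    (hest : d * γ.e + 2 ≤ (n + 1) * γ.e + (sup P γ).card) (hK : 0 ≤ P.degKD) :
    0 ≤ P.degC γ (P.multMin γ) := by
  classical
  rw [degC_eq P γ h]
  have hcj : ∀ j, (0 : ℝ) ≤ 1 - P.c j := by
    intro j
    have : (P.c j : ℝ) ≤ 1 := by exact_mod_cast P.c_le_one j
    linarith
  have h2 : ∀ a ∈ sup P γ,
      (1 : ℝ) - ∑ j, γ.ord (P.ℓ j) a * (1 - (P.c j : ℝ)) ≤ 1 - ((P.multMin γ a)⁻¹).toReal := by
    intro a ha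
    rw [sup, Finset.mem_filter] at ha
    obtain ⟨j, hj⟩ := ha.2
    refine le_trans ?_ (cost_ge P γ hj)
    have h3 : (γ.ord (P.ℓ j) a : ℝ) * (1 - (P.c j : ℝ)) ≤
        ∑ j, (γ.ord (P.ℓ j) a : ℝ) * (1 - (P.c j : ℝ)) :=
      Finset.single_le_sum (f := fun j => (γ.ord (P.ℓ j) a : ℝ) * (1 - (P.c j : ℝ)))
        (fun j _ => mul_nonneg (Nat.cast_nonneg _) (hcj j)) (Finset.mem_univ j)
    linarith
  have h2' := Finset.sum_le_sum h2
  rw [Finset.sum_sub_distrib] at h2'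
  have h3 : ∑ a ∈ sup P γ,
      ∑ j, (γ.ord (P.ℓ j) a : ℝ) * (1 - (P.c j : ℝ)) ≤ γ.e * ∑ j, (1 - (P.c j : ℝ)) := by
    calc _ ≤ ∑ a ∈ pts P.ℓ γ, ∑ j, (γ.ord (P.ℓ j) a : ℝ) * (1 - (P.c j : ℝ)) := by
          apply Finset.sum_le_sum_of_subset_of_nonneg (Finset.filter_subset _ _)
          intro a _ _
          exact Finset.sum_nonneg fun j _ => mul_nonneg (Nat.cast_nonneg _) (hcj j)
      _ = ∑ j, (∑ a ∈ pts P.ℓ γ, (γ.ord (P.ℓ j) a : ℝ)) * (1 - (P.c j : ℝ)) := by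
          rw [Finset.sum_comm]
          refine Finset.sum_congr rfl fun j _ => ?_
          rw [Finset.sum_mul]
      _ = γ.e * ∑ j, (1 - (P.c j : ℝ)) := by
          rw [Finset.mul_sum]
          refine Finset.sum_congr rfl fun j _ => ?_
          have h4 := sum_ord_pts γ h j
          have h5 : (∑ a ∈ pts P.ℓ γ, (γ.ord (P.ℓ j) a : ℝ)) = γ.e := by exact_mod_cast h4
          rw [h5]
  have h4 : ∑ j, (1 - (P.c j : ℝ)) = d - ∑ j, (P.c j : ℝ) := by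
    rw [Finset.sum_sub_distrib]
    simp
  have h5 : ((n : ℝ) + 1) ≤ ∑ j, (P.c j : ℝ) := by
    have h6 : ((n : ℚ) + 1) ≤ ∑ j, P.c j := by
      unfold HypOrbifold.degKD at hK
      linarith
    exact_mod_cast h6
  have h6 : (d : ℝ) * γ.e + 2 ≤ (n + 1) * γ.e + (sup P γ).card := by exact_mod_cast hest
  rw [h4] at h3
  have h7 : (0 : ℝ) ≤ γ.e := Nat.cast_nonneg _
  have h8 : ((n : ℝ) + 1) * γ.e ≤ (∑ j, (P.c j : ℝ)) * γ.e := mul_le_mul_of_nonneg_right h5 h7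
  simp only [Finset.sum_const, nsmul_eq_mul, mul_one] at h2'
  nlinarith

/-- the bound for the literal divisor -/
theorem low_lit (P : HypOrbifold n d) (γ : RatCurve n) (he : 1 ≤ γ.e)
    (h : ∀ j, γ.pull (P.ℓ j) ≠ 0) (hd : n + 1 ≤ d)
    (hest : d * γ.e + 2 ≤ (n + 1) * γ.e + (sup P γ).card) {c : ℚ} (hc0 : 0 ≤ c) (hc1 : c ≤ 1)
    (hc : ∀ j, c ≤ P.c j) (hcd : 2 ≤ (d - n + 1) * c) :
    0 ≤ P.degC γ (P.multLit γ) := by
  rw [degC_eq P γ h]
  have h2 := Finset.card_nsmul_le_sum _ _ _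
    (fun a (_ : a ∈ sup P γ) => cost_lit_ge P γ h hc1 hc a)
  rw [nsmul_eq_mul] at h2
  have h3 : (d : ℝ) * γ.e + 2 ≤ (n + 1) * γ.e + (sup P γ).card := by exact_mod_cast hest
  have hD : (0 : ℝ) ≤ d - n - 1 := by
    have : ((n + 1 : ℕ) : ℝ) ≤ d := by exact_mod_cast hd
    push_cast at this
    linarith
  have he' : (1 : ℝ) ≤ γ.e := by exact_mod_cast he
  have h4 : (d - n + 1 : ℝ) ≤ (sup P γ).card := by nlinarith
  have hc0' : (0 : ℝ) ≤ c := by exact_mod_cast hc0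
  have h5 := mul_le_mul_of_nonneg_right h4 hc0'
  have h6 : (2 : ℝ) ≤ (d - n + 1) * c := by exact_mod_cast hcd
  linarith

end Pool.Agent.KS6_82.OU
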