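import Mathlib
import Pool.Agent.KS6_82.OU.Low

/-!
# Upper bounds for the degree of `K + D_C`; lines
-/

set_option autoImplicit false

namespace Pool.Agent.KS6_82.OU

open Polynomial

theorem coeff_le {c : ℚ} (hc : c ≤ 1) {m : ENNReal} (hm : 1 ≤ m) (h : m ≤ mult c) :
    1 - (m⁻¹).toReal ≤ (c : ℝ) := by
  have hc' : (0 : ℝ) ≤ 1 - c := by
    have : (c : ℝ) ≤ 1 := by exact_mod_cast hc
    linarith
  have h1 : ENNReal.ofReal (1 - (c : ℝ)) ≤ m⁻¹ := by
    rw [mult] at h
    have h2 := ENNReal.inv_le_inv.2 h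
    rwa [inv_inv] at h2
  have h3 : m⁻¹ ≠ ⊤ := by
    have h4 : m⁻¹ ≤ 1 := ENNReal.inv_le_one.2 hm
    exact ne_top_of_le_ne_top ENNReal.one_ne_top h4
  have h2 := ENNReal.toReal_mono h3 h1
  rw [ENNReal.toReal_ofReal hc'] at h2
  linarith

theorem mult_le_mul {c r : ℚ} (hc1 : c ≤ 1) {t : ℕ} (ht : 1 ≤ t) (hr : 1 - (1 - c) * t ≤ r) :
    mult c ≤ t * mult r := by
  have hc' : (0 : ℝ) ≤ 1 - c := by
    have : (c : ℝ) ≤ 1 := by exact_mod_cast hc1
    linarith
  have h1 : (1 : ℝ) - (r : ℝ) ≤ t * (1 - c) := by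
    have : (1 : ℝ) - (1 - c) * t ≤ r := by exact_mod_cast hr
    linarith
  have h2 : mult r ≥ (ENNReal.ofReal (t * (1 - (c : ℝ))))⁻¹ := by
    rw [mult]
    exact ENNReal.inv_le_inv.2 (ENNReal.ofReal_le_ofReal h1)
  have ht0 : (t : ENNReal) ≠ 0 := by
    have : t ≠ 0 := by omega
    exact_mod_cast this
  have htt : (t : ENNReal) ≠ ⊤ := ENNReal.natCast_ne_top t
  refine le_trans ?_ (mul_le_mul_right h2 _)
  rw [ENNReal.ofReal_mul (Nat.cast_nonneg _), ENNReal.ofReal_natCast,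
    ENNReal.mul_inv (Or.inl ht0) (Or.inl htt), ← mul_assoc,
    ENNReal.mul_inv_cancel ht0 htt, one_mul, mult]

variable {n d : ℕ}

theorem mem_sup (P : HypOrbifold n d) (γ : RatCurve n) {a : Option ℂ} (ha : a ∈ sup P γ) :
    ∃ j, ∑ i, P.ℓ j i * γ.val a i = 0 := by
  rw [sup, Finset.mem_filter] at ha
  obtain ⟨_, j, hj⟩ := ha
  exact ⟨j, γ.sum_val_eq_zero _ _ hj⟩

/-- the cost at a point -/
theorem cost_le (P : HypOrbifold n d) (γ : RatCurve n) {c : ℚ} (hc1 : c ≤ 1)
    (hc : ∀ j, P.c j ≤ c) (a : Option ℂ) {t : ℕ} (ht : 1 ≤ t)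
    (h : ∀ j, ∑ i, P.ℓ j i * γ.val a i = 0 → t ≤ γ.ord (P.ℓ j) a) :
    1 - ((P.multMin γ a)⁻¹).toReal ≤ ((max 0 (1 - (1 - c) * t) : ℚ) : ℝ) := by
  have h0 : (0 : ℚ) ≤ (1 - c) * t := mul_nonneg (by linarith) (Nat.cast_nonneg _)
  refine coeff_le (max_le zero_le_one (by linarith)) (le_max_left _ _) (max_le ?_ ?_)
  · have h2 : mult 0 = 1 := by simp [mult]
    rw [← h2]
    exact mult_mono (le_max_left _ _)
  · refine iSup_le fun j => iSup_le fun hj => ENNReal.div_le_of_le_mul' ?_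
    refine (mult_mono (hc j)).trans ((mult_le_mul (r := max 0 (1 - (1 - c) * t)) hc1 ht
      (le_max_right _ _)).trans ?_)
    have h6 : (t : ENNReal) ≤ (γ.ord (P.ℓ j) a : ENNReal) := by exact_mod_cast h j hj
    exact mul_le_mul_left h6 _

/-- the upper bound from a list of slots -/
theorem degC_neg_of_slots (P : HypOrbifold n d) (γ : RatCurve n)
    (hp : ∀ j, γ.pull (P.ℓ j) ≠ 0) {c : ℚ} (hc1 : c ≤ 1) (hc : ∀ j, P.c j ≤ c)
    {ι : Type} [Fintype ι] (α : ι → Option ℂ) (τ : ι → ℕ) (hτ : ∀ i, 1 ≤ τ i)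
    (hcov : ∀ a j, ∑ i, P.ℓ j i * γ.val a i = 0 → ∃ i, α i = a ∧ τ i ≤ γ.ord (P.ℓ j) a)
    (hsum : ∑ i, max 0 (1 - (1 - c) * τ i) < 2) : P.degC γ (P.multMin γ) < 0 := by
  classical
  rw [degC_eq P γ hp]
  rcases isEmpty_or_nonempty ι with hι | hι
  · have h0 : sup P γ = ∅ := by
      rw [Finset.eq_empty_iff_forall_notMem]
      intro a ha
      obtain ⟨j, hj⟩ := mem_sup P γ ha
      obtain ⟨i, -⟩ := hcov a j hj
      exact hι.elim i
    rw [h0, Finset.sum_empty]
    norm_num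
  have h1 : ∀ a, ∃ i, a ∈ sup P γ → (α i = a ∧ ∀ k, α k = a → τ i ≤ τ k) := by
    intro a
    by_cases ha : a ∈ sup P γ
    · obtain ⟨j, hj⟩ := mem_sup P γ ha
      obtain ⟨i1, hi1, -⟩ := hcov a j hj
      obtain ⟨i, hi, hmin⟩ := Finset.exists_min_image (Finset.univ.filter fun i => α i = a) τ
        ⟨i1, by simpa using hi1⟩
      rw [Finset.mem_filter] at hi
      exact ⟨i, fun _ => ⟨hi.2, fun k hk => hmin k (by simpa using hk)⟩⟩
    · exact ⟨hι.some, fun h => absurd h ha⟩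
  choose i hi using h1
  have h2 : ∀ a ∈ sup P γ, 1 - ((P.multMin γ a)⁻¹).toReal ≤
      ((max 0 (1 - (1 - c) * τ (i a)) : ℚ) : ℝ) := by
    intro a ha
    refine cost_le P γ hc1 hc a (hτ _) fun j hj => ?_
    obtain ⟨k, hk, hk2⟩ := hcov a j hj
    exact ((hi a ha).2 k hk).trans hk2
  have h3 := Finset.sum_le_sum h2
  have h4 : ∑ a ∈ sup P γ, (max 0 (1 - (1 - c) * τ (i a)) : ℚ) ≤
      ∑ k, max 0 (1 - (1 - c) * τ k) := by
    have h5 : Set.InjOn i (sup P γ) := by
      intro a ha b hb hab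
      have ha' := (hi a ha).1
      have hb' := (hi b hb).1
      rw [← ha', ← hb', hab]
    rw [← Finset.sum_image (f := fun k => (max 0 (1 - (1 - c) * τ k) : ℚ)) h5]
    exact Finset.sum_le_sum_of_subset_of_nonneg (Finset.subset_univ _)
      fun k _ _ => le_max_left _ _
  have h5 : (∑ a ∈ sup P γ, ((max 0 (1 - (1 - c) * τ (i a)) : ℚ) : ℝ)) < 2 := by
    have h6 := lt_of_le_of_lt h4 hsum
    exact_mod_cast h6
  linarith

/-- the literal divisor for curves of degree one -/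
theorem degC_lit_neg (P : HypOrbifold n d) (γ : RatCurve n) (he : γ.e = 1)
    (hp : ∀ j, γ.pull (P.ℓ j) ≠ 0) {c : ℚ} (hc0 : 0 ≤ c) (hc1 : c ≤ 1) (hc : ∀ j, P.c j ≤ c)
    {N : ℕ} (hN : (sup P γ).card ≤ N) (hsum : N * c < 2) : P.degC γ (P.multLit γ) < 0 := by
  rw [degC_eq P γ hp]
  have h2 : ∀ a ∈ sup P γ, 1 - ((P.multLit γ a)⁻¹).toReal ≤ (c : ℝ) := by
    intro a ha
    rw [sup, Finset.mem_filter] at ha
    obtain ⟨ha1, j, hj⟩ := ha
    have h3 : γ.ord (P.ℓ j) a = 1 := by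
      have := ord_le_e γ hp j ha1
      omega
    refine coeff_le hc1 ?_ ?_
    · refine le_iInf fun i => le_iInf fun hi => ?_
      have h4 : (1 : ENNReal) ≤ (γ.ord (P.ℓ i) a : ENNReal) := by
        have := Nat.one_le_iff_ne_zero.2 (γ.ord_ne_zero (hp i) hi)
        exact_mod_cast this
      have h5 : (1 : ENNReal) ≤ mult (P.c i) := by
        have h6 : mult 0 = 1 := by simp [mult]
        rw [← h6]
        exact mult_mono (P.c_pos i).le
      calc (1 : ENNReal) = 1 * 1 := (one_mul _).symm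
        _ ≤ _ := mul_le_mul' h4 h5
    · refine (iInf_le_of_le j (iInf_le_of_le (γ.sum_val_eq_zero _ _ hj) le_rfl)).trans ?_
      rw [h3, Nat.cast_one, one_mul]
      exact mult_mono (hc j)
  have h3 := Finset.sum_le_card_nsmul _ _ _ h2
  rw [nsmul_eq_mul] at h3
  have h4 : ((sup P γ).card : ℝ) * c ≤ N * c :=
    mul_le_mul_of_nonneg_right (by exact_mod_cast hN) (by exact_mod_cast hc0)
  have h5 : (N : ℝ) * c < 2 := by exact_mod_cast hsum
  linarith

/-- the line through two points -/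
theorem line_through {q x : Fin (n + 1) → ℂ} (h : LinearIndependent ℂ ![q, x]) :
    ∃ γ : RatCurve n, γ.e = 1 ∧ γ.val none = x ∧ (∀ i, γ.f i = C (q i) + C (x i) * X) ∧
      γ.Birational := by
  rw [LinearIndependent.pair_iff] at h
  have hinf : ∃ i, (C (q i) + C (x i) * X : ℂ[X]).coeff 1 ≠ 0 := by
    by_contra hcon
    push Not at hcon
    have h1 := h 0 1 (by
      funext i
      have := hcon i
      simp only [coeff_add, coeff_C_mul, coeff_X_one, mul_one] at this
      rw [coeff_C_of_ne_zero one_ne_zero, zero_add] at this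
      simp [this])
    exact one_ne_zero h1.2
  have hfin : ∀ a : ℂ, ∃ i, (C (q i) + C (x i) * X : ℂ[X]).eval a ≠ 0 := by
    intro a
    by_contra hcon
    push Not at hcon
    have h1 := h 1 a (by
      funext i
      have := hcon i
      simp only [eval_add, eval_C, eval_mul, eval_X] at this
      simp only [one_smul, Pi.add_apply, Pi.smul_apply, smul_eq_mul, Pi.zero_apply]
      linear_combination this)
    exact one_ne_zero h1.1
  let γ : RatCurve n := ⟨1, fun i => C (q i) + C (x i) * X, fun i => by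
    rw [add_comm]
    exact natDegree_linear_le, hinf, hfin⟩
  have hnone : γ.val none = x := by
    funext i
    simp only [γ, RatCurve.val, coeff_add, coeff_C_mul, coeff_X_one, mul_one]
    rw [coeff_C_of_ne_zero one_ne_zero, zero_add]
  have hsome : ∀ a, γ.val (some a) = q + a • x := by
    intro a
    funext i
    simp only [γ, RatCurve.val, eval_add, eval_C, eval_mul, eval_X, Pi.add_apply, Pi.smul_apply,
      smul_eq_mul]
    ring
  refine ⟨γ, rfl, hnone, fun i => rfl, ∅, Set.finite_empty, fun a _ b _ => ?_⟩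
  rintro ⟨r, hr⟩
  rcases a with _ | a <;> rcases b with _ | b
  · rfl
  · rw [hnone, hsome] at hr
    have h1 := h r (r * b - 1) (by
      have : r • q + (r * b - 1) • x = r • (q + b • x) - x := by
        rw [smul_add, smul_smul, sub_smul, one_smul]
        abel
      rw [this, ← hr, sub_self])
    have h2 := h1.2
    rw [h1.1, zero_mul, zero_sub] at h2
    exact absurd (neg_eq_zero.1 h2) one_ne_zero
  · rw [hnone, hsome] at hr
    have h1 := h 1 (a - r) (by
      rw [one_smul, sub_smul, ← hr]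
      abel)
    exact absurd h1.1 one_ne_zero
  · rw [hsome, hsome] at hr
    have h1 := h (1 - r) (a - r * b) (by
      have : (1 - r) • q + (a - r * b) • x = (q + a • x) - r • (q + b • x) := by
        rw [smul_add, smul_smul, sub_smul, sub_smul, one_smul]
        abel
      rw [this, ← hr, sub_self])
    have h2 : r = 1 := by linear_combination -h1.1
    have h3 : a = b := by
      have := h1.2
      rw [h2] at this
      linear_combination this
    rw [h3]

theorem exists_kill (ℓ : Fin d → Fin (n + 1) → ℂ) :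
    ∃ q : Fin (n + 1) → ℂ, q ≠ 0 ∧ ∀ j : Fin d, (j : ℕ) < n → ∑ i, ℓ j i * q i = 0 := by
  classical
  let φ : (Fin (n + 1) → ℂ) →ₗ[ℂ] (Fin n → ℂ) :=
    LinearMap.pi fun j => if h : (j : ℕ) < d then
      ∑ i, ℓ ⟨j, h⟩ i • LinearMap.proj i else 0
  have h1 : LinearMap.ker φ ≠ ⊥ := LinearMap.ker_ne_bot_of_finrank_lt (by simp)
  obtain ⟨q, hq, hq0⟩ := Submodule.exists_mem_ne_zero_of_ne_bot h1
  refine ⟨q, hq0, fun j hj => ?_⟩
  have h2 := congrFun (LinearMap.mem_ker.1 hq) ⟨j, hj⟩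
  simp only [φ, LinearMap.pi_apply, Pi.zero_apply] at h2
  rw [dif_pos j.2] at h2
  simpa using h2

theorem ℓ_ne_zero (P : HypOrbifold n d) (j : Fin d) : P.ℓ j ≠ 0 := by
  have h1 := P.general {j} (by simp)
  exact h1.ne_zero ⟨j, by simp⟩

/-- lines through a point of the intersection of `n` of the hyperplanes -/
theorem lines_aux (hn : 1 ≤ n) (P : HypOrbifold n d) :
    VeryGeneral fun x => ∃ (γ : RatCurve n) (α : Option (Fin (d - n)) → Option ℂ),
      γ.e = 1 ∧ γ.Birational ∧ γ.Through x ∧ (∀ j, γ.pull (P.ℓ j) ≠ 0) ∧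
      ∀ a j, ∑ i, P.ℓ j i * γ.val a i = 0 → ∃ i, α i = a := by
  classical
  obtain ⟨q, hq0, hq⟩ := exists_kill P.ℓ
  obtain ⟨w, hw0, hw⟩ := exists_kill (d := 1) (fun _ => q)
  have hwq : ∑ i, w i * q i = 0 := by
    have := hw 0 (Nat.lt_of_lt_of_le zero_lt_one hn)
    rw [← this]
    exact Finset.sum_congr rfl fun i _ => mul_comm _ _
  refine veryGeneral_forms (ι := Fin d ⊕ Unit) (Sum.elim P.ℓ fun _ => w) ?_ fun x hx hgen' => ?_
  · rintro (j | _)
    · exact ℓ_ne_zero P j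
    · exact hw0
  have hgen : ∀ j, ∑ i, P.ℓ j i * x i ≠ 0 := fun j => hgen' (Sum.inl j)
  have hwx : ∑ i, w i * x i ≠ 0 := hgen' (Sum.inr ())
  have hqx : LinearIndependent ℂ ![q, x] := by
    rw [LinearIndependent.pair_iff]
    intro s t hst
    have h1 : ∑ i, w i * (s • q + t • x) i = 0 := by
      rw [hst]
      simp
    have h2 : ∑ i, w i * (s • q + t • x) i = s * ∑ i, w i * q i + t * ∑ i, w i * x i := by
      rw [Finset.mul_sum, Finset.mul_sum, ← Finset.sum_add_distrib]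
      refine Finset.sum_congr rfl fun i _ => ?_
      simp only [Pi.add_apply, Pi.smul_apply, smul_eq_mul]
      ring
    rw [h2, hwq, mul_zero, zero_add] at h1
    have ht : t = 0 := (mul_eq_zero.1 h1).resolve_right hwx
    refine ⟨?_, ht⟩
    rw [ht, zero_smul, add_zero] at hst
    exact (smul_eq_zero.1 hst).resolve_right hq0
  obtain ⟨γ, he, hinf, hf, hbir⟩ := line_through hqx
  have hpull : ∀ j, γ.pull (P.ℓ j) = C (∑ i, P.ℓ j i * q i) + C (∑ i, P.ℓ j i * x i) * X := by
    intro j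
    rw [RatCurve.pull, map_sum, map_sum, Finset.sum_mul, ← Finset.sum_add_distrib]
    refine Finset.sum_congr rfl fun i _ => ?_
    rw [hf, map_mul, map_mul]
    ring
  have hp : ∀ j, γ.pull (P.ℓ j) ≠ 0 := by
    intro j h0
    apply hgen j
    have h1 := congrArg (fun p => coeff p 1) h0
    simp only [hpull, coeff_add, coeff_C_mul, coeff_X_one, mul_one, coeff_zero] at h1
    rwa [coeff_C_of_ne_zero one_ne_zero, zero_add] at h1
  let α : Option (Fin (d - n)) → Option ℂ := fun i => match i with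
    | none => some 0
    | some k => if h : n + (k : ℕ) < d then
        some (-(∑ i, P.ℓ ⟨n + k, h⟩ i * q i) / ∑ i, P.ℓ ⟨n + k, h⟩ i * x i) else none
  refine ⟨γ, α, he, hbir, ⟨none, 1, one_ne_zero, by rw [one_smul]; exact hinf⟩, hp,
    fun a j haj => ?_⟩
  rcases a with _ | a
  · rw [hinf] at haj
    exact absurd haj (hgen j)
  · rw [RatCurve.sum_val_some, hpull] at haj
    simp only [eval_add, eval_C, eval_mul, eval_X] at haj
    by_cases hj : (j : ℕ) < n
    · rw [hq j hj, zero_add] at haj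
      have h1 : a = 0 := (mul_eq_zero.1 haj).resolve_left (hgen j)
      exact ⟨none, by rw [h1]⟩
    · have hjd := j.2
      refine ⟨some ⟨j - n, by omega⟩, ?_⟩
      have h2 : n + ((⟨j - n, by omega⟩ : Fin (d - n)) : ℕ) < d := by
        simp only
        omega
      have h3 : (⟨n + ((⟨j - n, by omega⟩ : Fin (d - n)) : ℕ), h2⟩ : Fin d) = j := by
        apply Fin.ext
        simp only
        omega
      simp only [α]
      rw [dif_pos h2, h3]
      congr 1
      rw [div_eq_iff (hgen j)]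
      linear_combination -haj

theorem card_sup_le (P : HypOrbifold n d) (γ : RatCurve n) {ι : Type} [Fintype ι]
    (α : ι → Option ℂ) (h : ∀ a j, ∑ i, P.ℓ j i * γ.val a i = 0 → ∃ i, α i = a) :
    (sup P γ).card ≤ Fintype.card ι := by
  classical
  have h1 : sup P γ ⊆ Finset.univ.image α := by
    intro a ha
    obtain ⟨j, hj⟩ := mem_sup P γ ha
    obtain ⟨i, hi⟩ := h a j hj
    exact Finset.mem_image.2 ⟨i, Finset.mem_univ _, hi⟩
  exact (Finset.card_le_card h1).trans Finset.card_image_le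

theorem lines (hn : 1 ≤ n) (P : HypOrbifold n d) {c : ℚ} (hc : ∀ j, P.c j ≤ c)
    (hc0 : 0 ≤ c) (hc1 : c ≤ 1) (h : (1 + (d - n : ℕ) : ℚ) * c < 2) :
    P.IsUniruledWith P.multMin ∧ P.IsUniruledWith P.multLit := by
  constructor
  · refine (lines_aux hn P).mono fun x hx => ?_
    rintro ⟨γ, α, he, hbir, hth, hp, hα⟩
    refine ⟨γ, he.ge, hbir, hp, ?_, hth⟩
    refine degC_neg_of_slots P γ hp hc1 hc α (fun _ => 1) (fun _ => le_rfl) (fun a j haj => ?_) ?_
    · obtain ⟨i, hi⟩ := hα a j haj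
      exact ⟨i, hi, Nat.one_le_iff_ne_zero.2 (γ.ord_ne_zero (hp j) haj)⟩
    · rw [Finset.sum_const, nsmul_eq_mul, Finset.card_univ, Fintype.card_option, Fintype.card_fin]
      have h1 : max 0 (1 - (1 - c) * ((1 : ℕ) : ℚ)) = c := by
        push_cast
        rw [max_eq_right] <;> linarith
      rw [h1]
      push_cast
      linarith
  · refine (lines_aux hn P).mono fun x hx => ?_
    rintro ⟨γ, α, he, hbir, hth, hp, hα⟩
    refine ⟨γ, he.ge, hbir, hp, ?_, hth⟩
    refine degC_lit_neg P γ he hp hc0 hc1 hc (card_sup_le P γ α hα) ?_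
    rw [Fintype.card_option, Fintype.card_fin]
    push_cast
    linarith

end Pool.Agent.KS6_82.OU
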