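import Mathlib
import Pool.Agent.KS6_82.OU.Up
import Pool.Graph.R_seed8.H952R2.Sextic.CommonZero

/-!
# Existence of rational curves with prescribed contact with hyperplanes in general position
-/

set_option autoImplicit false

namespace Pool.Agent.KS6_82.OU

open Polynomial

variable {n d : ℕ}

/-- the values of the linear forms -/
noncomputable def Lam (ℓ : Fin d → Fin (n + 1) → ℂ) : (Fin (n + 1) → ℂ) →ₗ[ℂ] (Fin d → ℂ) :=
  (Matrix.of ℓ).mulVecLin

theorem Lam_apply (ℓ : Fin d → Fin (n + 1) → ℂ) (y : Fin (n + 1) → ℂ) (j : Fin d) :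
    Lam ℓ y j = ∑ i, ℓ j i * y i := rfl

/-- The relations between the linear forms. -/
theorem exists_relations (hd : n + 1 ≤ d) {ℓ : Fin d → Fin (n + 1) → ℂ}
    (general : ∀ s : Finset (Fin d), s.card ≤ n + 1 → LinearIndependent ℂ (fun j : s => ℓ j)) :
    ∃ R : (Fin d → ℂ) →ₗ[ℂ] (Fin (d - (n + 1)) → ℂ), LinearMap.ker R = LinearMap.range (Lam ℓ) := by
  have hinj : Function.Injective (Lam ℓ) := by
    rw [← LinearMap.ker_eq_bot, LinearMap.ker_eq_bot']
    intro y hy
    refine common_zero general (J := Finset.univ) (by simpa using hd) fun j _ => ?_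
    exact congrFun hy j
  have h1 : Module.finrank ℂ (LinearMap.range (Lam ℓ)) = n + 1 := by
    rw [LinearMap.finrank_range_of_inj hinj]
    simp
  have h2 := Submodule.finrank_quotient_add_finrank (LinearMap.range (Lam ℓ))
  have h3 : Module.finrank ℂ ((Fin d → ℂ) ⧸ LinearMap.range (Lam ℓ)) =
      Module.finrank ℂ (Fin (d - (n + 1)) → ℂ) := by
    rw [h1] at h2
    simp only [Module.finrank_fintype_fun_eq_card, Fintype.card_fin] at h2 ⊢
    omega
  let e := LinearEquiv.ofFinrankEq _ _ h3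
  refine ⟨e.toLinearMap ∘ₗ (LinearMap.range (Lam ℓ)).mkQ, ?_⟩
  rw [LinearEquiv.ker_comp, Submodule.ker_mkQ]

section pattern

variable {ι : Type} [Fintype ι]

open Classical in
/-- the polynomials with the prescribed zeros -/
noncomputable def gp {R : Type*} [CommRing R] (σ : ι → Fin d) (τ : ι → ℕ) (α : ι → R) (j : Fin d) :
    R[X] :=
  ∏ i ∈ Finset.univ.filter (fun i => σ i = j), (X - C (α i)) ^ τ i

theorem gp_map {R S : Type*} [CommRing R] [CommRing S] (φ : R →+* S) (σ : ι → Fin d) (τ : ι → ℕ)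
    (α : ι → R) (j : Fin d) : (gp σ τ α j).map φ = gp σ τ (fun i => φ (α i)) j := by
  classical
  simp only [gp, Polynomial.map_prod, Polynomial.map_pow, Polynomial.map_sub, Polynomial.map_X,
    Polynomial.map_C]

open Classical in
theorem gp_monic (σ : ι → Fin d) (τ : ι → ℕ) (α : ι → ℂ) (j : Fin d) : (gp σ τ α j).Monic :=
  monic_prod_of_monic _ _ fun i _ => (monic_X_sub_C _).pow _

open Classical in
theorem gp_natDegree (σ : ι → Fin d) (τ : ι → ℕ) (α : ι → ℂ) (j : Fin d) :
    (gp σ τ α j).natDegree = ∑ i ∈ Finset.univ.filter (fun i => σ i = j), τ i := by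
  rw [gp, natDegree_prod_of_monic _ _ fun i _ => (monic_X_sub_C _).pow _]
  refine Finset.sum_congr rfl fun i _ => ?_
  rw [natDegree_pow, natDegree_X_sub_C, mul_one]

open Classical in
theorem gp_zero {e : ℕ} (σ : ι → Fin d) (τ : ι → ℕ)
    (hsum : ∀ j, ∑ i ∈ Finset.univ.filter (fun i => σ i = j), τ i = e) (j : Fin d) :
    gp σ τ (fun _ => (0 : ℂ)) j = X ^ e := by
  rw [gp]
  simp only [map_zero, sub_zero]
  rw [Finset.prod_pow_eq_pow_sum, hsum]

open Classical in
/-- The system of equations has a solution which is not constant. -/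
theorem exists_solution (hd : n + 1 ≤ d) {ℓ : Fin d → Fin (n + 1) → ℂ}
    (general : ∀ s : Finset (Fin d), s.card ≤ n + 1 → LinearIndependent ℂ (fun j : s => ℓ j))
    (x : Fin (n + 1) → ℂ) {e : ℕ} (σ : ι → Fin d) (τ : ι → ℕ) (i₀ : ι)
    (hsum : ∀ j, ∑ i ∈ Finset.univ.filter (fun i => σ i = j), τ i = e)
    (hcard : (d - (n + 1)) * e + 1 < Fintype.card ι) :
    ∃ α : ι → ℂ, α ≠ 0 ∧ α i₀ = 0 ∧ ∃ f : Fin (n + 1) → ℂ[X], (∀ i, (f i).natDegree ≤ e) ∧
      (∀ i, (f i).coeff e = x i) ∧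
      ∀ j, ∑ i, C (ℓ j i) * f i = C (∑ i, ℓ j i * x i) * gp σ τ α j := by
  obtain ⟨R, hR⟩ := exists_relations hd general
  let F : (Fin (d - (n + 1)) × Fin e) ⊕ Unit → MvPolynomial ι ℂ := Sum.elim
    (fun p => ∑ j, MvPolynomial.C (R (Pi.single j (∑ i, ℓ j i * x i)) p.1) *
      (gp σ τ (fun i => (MvPolynomial.X i : MvPolynomial ι ℂ)) j).coeff p.2)
    (fun _ => MvPolynomial.X i₀)
  have hev : ∀ (α : ι → ℂ) j k, MvPolynomial.eval α
      ((gp σ τ (fun i => (MvPolynomial.X i : MvPolynomial ι ℂ)) j).coeff k) =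
      (gp σ τ α j).coeff k := by
    intro α j k
    rw [← Polynomial.coeff_map, gp_map]
    simp
  have hF : ∀ (α : ι → ℂ) (p : Fin (d - (n + 1)) × Fin e), MvPolynomial.eval α (F (Sum.inl p)) =
      R (fun j => (∑ i, ℓ j i * x i) * (gp σ τ α j).coeff p.2) p.1 := by
    intro α p
    have h1 : (fun j => (∑ i, ℓ j i * x i) * (gp σ τ α j).coeff p.2) =
        ∑ j, (gp σ τ α j).coeff p.2 • (Pi.single j (∑ i, ℓ j i * x i) : Fin d → ℂ) := by
      funext k
      rw [Finset.sum_apply, Finset.sum_eq_single k]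
      · simp [mul_comm]
      · intro j _ hj
        simp [Pi.single_eq_of_ne (Ne.symm hj)]
      · intro h
        exact absurd (Finset.mem_univ _) h
    rw [h1, map_sum, Finset.sum_apply]
    simp only [F, Sum.elim_inl, map_sum, map_mul, MvPolynomial.eval_C, hev, map_smul,
      Pi.smul_apply, smul_eq_mul]
    exact Finset.sum_congr rfl fun j _ => mul_comm _ _
  obtain ⟨α, hα, hα0⟩ := Pool.Agent.H952R2.Sextic.exists_common_zero (K := ℂ)
    (ι := ι) (κ := (Fin (d - (n + 1)) × Fin e) ⊕ Unit) (by simpa using hcard) F (by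
      rintro (p | _)
      · rw [hF]
        have h1 : (fun j => (∑ i, ℓ j i * x i) * (gp σ τ (0 : ι → ℂ) j).coeff p.2) = 0 := by
          funext j
          have h2 : gp σ τ (0 : ι → ℂ) j = X ^ e := gp_zero σ τ hsum j
          rw [h2, coeff_X_pow, if_neg (by have := p.2.2; omega), mul_zero]
          rfl
        rw [h1, map_zero]
        rfl
      · simp [F])
  refine ⟨α, hα, by simpa [F] using hα0 (Sum.inr ()), ?_⟩
  have hv : ∀ k : ℕ, ∃ v : Fin (n + 1) → ℂ, (k = e → v = x) ∧ (k ≤ e → ∀ j, ∑ i, ℓ j i * v i =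
      (∑ i, ℓ j i * x i) * (gp σ τ α j).coeff k) := by
    intro k
    rcases lt_trichotomy k e with hk | hk | hk
    · have h1 : (fun j => (∑ i, ℓ j i * x i) * (gp σ τ α j).coeff k) ∈ LinearMap.ker R := by
        rw [LinearMap.mem_ker]
        funext i
        have h2 := hα0 (Sum.inl (i, ⟨k, hk⟩))
        rw [hF] at h2
        exact h2
      rw [hR] at h1
      obtain ⟨v, hv⟩ := h1
      exact ⟨v, fun h => absurd h hk.ne, fun _ j => congrFun hv j⟩
    · refine ⟨x, fun _ => rfl, fun _ j => ?_⟩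
      have h1 : (gp σ τ α j).coeff k = 1 := by
        rw [hk, ← hsum j, ← gp_natDegree]
        exact gp_monic σ τ α j
      rw [h1, mul_one]
    · exact ⟨0, fun h => absurd h hk.ne', fun h => absurd h (by omega)⟩
  choose v hv1 hv2 using hv
  refine ⟨fun i => ∑ k ∈ Finset.range (e + 1), C (v k i) * X ^ k, fun i => ?_, fun i => ?_,
    fun j => ?_⟩
  · refine natDegree_sum_le_of_forall_le _ _ fun k hk => ?_
    refine (natDegree_C_mul_X_pow_le _ _).trans ?_
    have := Finset.mem_range.1 hk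
    omega
  · rw [finsetSum_coeff, Finset.sum_eq_single e]
    · rw [coeff_C_mul_X_pow, if_pos rfl, hv1 e rfl]
    · intro k _ hk
      rw [coeff_C_mul_X_pow, if_neg (Ne.symm hk)]
    · intro h
      exact absurd (Finset.mem_range.2 (Nat.lt_succ_self e)) h
  · have h1 : gp σ τ α j = ∑ k ∈ Finset.range (e + 1), C ((gp σ τ α j).coeff k) * X ^ k := by
      refine as_sum_range_C_mul_X_pow' _ ?_
      rw [gp_natDegree, hsum]
      exact Nat.lt_succ_self e
    rw [h1, Finset.mul_sum]
    simp only [Finset.mul_sum]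
    rw [Finset.sum_comm]
    refine Finset.sum_congr rfl fun k hk => ?_
    rw [← mul_assoc, ← C_mul, ← hv2 k (by have := Finset.mem_range.1 hk; omega) j, map_sum,
      Finset.sum_mul]
    refine Finset.sum_congr rfl fun i _ => ?_
    rw [C_mul, mul_assoc]

end pattern

end Pool.Agent.KS6_82.OU
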