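import Mathlib
import Pool.Agent.KS6_82.OU.Curve

/-!
# Existence of rational curves with prescribed contact with hyperplanes, II
-/

set_option autoImplicit false

namespace Pool.Agent.KS6_82.OU

open Polynomial

variable {n d : ℕ}

/-- the forms determine the polynomials -/
theorem eq_of_forms {ℓ : Fin d → Fin (n + 1) → ℂ}
    (general : ∀ s : Finset (Fin d), s.card ≤ n + 1 → LinearIndependent ℂ (fun j : s => ℓ j))
    {J : Finset (Fin d)} (hJ : n + 1 ≤ J.card) {f g : Fin (n + 1) → ℂ[X]}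
    (h : ∀ j ∈ J, ∑ i, C (ℓ j i) * f i = ∑ i, C (ℓ j i) * g i) : f = g := by
  have h1 : ∀ k, (fun i => (f i - g i).coeff k) = 0 := by
    intro k
    refine common_zero general hJ fun j hj => ?_
    have h2 := congrArg (fun p => coeff p k) (h j hj)
    simp only [finsetSum_coeff, coeff_C_mul] at h2
    simp only [coeff_sub, mul_sub, Finset.sum_sub_distrib, h2, sub_self]
  funext i
  rw [← sub_eq_zero]
  ext k
  exact congrFun (h1 k) i

/-- The equation of a pair of points with the same image. -/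
theorem two_points {e : ℕ} {b1 b2 b3 s t r : ℂ} (he : e ≠ 0)
    (h12 : b2 ≠ b1) (h1 : (s - b1) ^ e = r * (t - b1) ^ e)
    (h2 : (s - b2) ^ e = r * (t - b2) ^ e) (h3 : (s - b3) ^ e = r * (t - b3) ^ e) (hr : r ≠ 0)
    (t1 : t ≠ b1) (t2 : t ≠ b2) (t3 : t ≠ b3) :
    s = t ∨ ∃ ζ ξ : ℂ, ζ ^ e = 1 ∧ ξ ^ e = 1 ∧ (ζ ≠ 1 ∨ ξ ≠ 1) ∧
      (b3 - b1) * ((t - b1) - ζ * (t - b2)) - (b2 - b1) * ((t - b1) - ξ * (t - b3)) = 0 := by
  have k1 : t - b1 ≠ 0 := sub_ne_zero.2 t1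
  have k2 : t - b2 ≠ 0 := sub_ne_zero.2 t2
  have k3 : t - b3 ≠ 0 := sub_ne_zero.2 t3
  obtain ⟨w, hw⟩ : ∃ w, w = (s - b1) / (t - b1) := ⟨_, rfl⟩
  have w1 : s - b1 = w * (t - b1) := by rw [hw]; field_simp
  have hwe : w ^ e = r := by
    rw [w1, mul_pow] at h1
    exact mul_right_cancel₀ (pow_ne_zero _ k1) h1
  have hw0 : w ≠ 0 := by
    intro h0
    rw [h0, zero_pow he] at hwe
    exact hr hwe.symm
  obtain ⟨ζ, hζ⟩ : ∃ ζ, ζ = (s - b2) / (t - b2) / w := ⟨_, rfl⟩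
  obtain ⟨ξ, hξ⟩ : ∃ ξ, ξ = (s - b3) / (t - b3) / w := ⟨_, rfl⟩
  have w2 : s - b2 = ζ * w * (t - b2) := by rw [hζ]; field_simp
  have w3 : s - b3 = ξ * w * (t - b3) := by rw [hξ]; field_simp
  have hζe : ζ ^ e = 1 := by
    rw [hζ, div_pow, div_pow, h2, hwe]
    field_simp
  have hξe : ξ ^ e = 1 := by
    rw [hξ, div_pow, div_pow, h3, hwe]
    field_simp
  by_cases hne : ζ ≠ 1 ∨ ξ ≠ 1
  · right
    refine ⟨ζ, ξ, hζe, hξe, hne, ?_⟩
    have h4 : w * ((b3 - b1) * ((t - b1) - ζ * (t - b2)) -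
        (b2 - b1) * ((t - b1) - ξ * (t - b3))) = 0 := by
      linear_combination (b3 - b2) * (-w1) + (b3 - b1) * w2 - (b2 - b1) * w3
    exact (mul_eq_zero.1 h4).resolve_left hw0
  · left
    push Not at hne
    rw [hne.1, one_mul] at w2
    have h4 : (w - 1) * (b2 - b1) = 0 := by linear_combination w2 - w1
    have h5 : w = 1 := sub_eq_zero.1 ((mul_eq_zero.1 h4).resolve_right (sub_ne_zero.2 h12))
    rw [h5] at w1
    linear_combination w1

theorem finite_bad {e : ℕ} (he : e ≠ 0) {b1 b2 b3 : ℂ} (h12 : b2 ≠ b1) (h13 : b3 ≠ b1)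
    (h23 : b3 ≠ b2) : {t : ℂ | ∃ ζ ξ : ℂ, ζ ^ e = 1 ∧ ξ ^ e = 1 ∧ (ζ ≠ 1 ∨ ξ ≠ 1) ∧
      (b3 - b1) * ((t - b1) - ζ * (t - b2)) - (b2 - b1) * ((t - b1) - ξ * (t - b3)) = 0}.Finite := by
  have hR : {ζ : ℂ | ζ ^ e = 1}.Finite := by
    have h1 : {ζ : ℂ | ζ ^ e = 1} ⊆ ((nthRoots e (1 : ℂ)).toFinset : Set ℂ) := by
      intro ζ hζ
      simp only [Finset.mem_coe, Multiset.mem_toFinset, mem_nthRoots (Nat.pos_of_ne_zero he)]
      exact hζ
    exact (Finset.finite_toSet _).subset h1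
  have h1 : {t : ℂ | ∃ ζ ξ : ℂ, ζ ^ e = 1 ∧ ξ ^ e = 1 ∧ (ζ ≠ 1 ∨ ξ ≠ 1) ∧
      (b3 - b1) * ((t - b1) - ζ * (t - b2)) - (b2 - b1) * ((t - b1) - ξ * (t - b3)) = 0} ⊆
      ⋃ p ∈ {ζ : ℂ | ζ ^ e = 1} ×ˢ {ζ : ℂ | ζ ^ e = 1}, {t : ℂ | (p.1 ≠ 1 ∨ p.2 ≠ 1) ∧
      (b3 - b1) * ((t - b1) - p.1 * (t - b2)) - (b2 - b1) * ((t - b1) - p.2 * (t - b3)) = 0} := by
    rintro t ⟨ζ, ξ, h1, h2, h3, h4⟩
    exact Set.mem_biUnion (x := (ζ, ξ)) ⟨h1, h2⟩ ⟨h3, h4⟩
  refine Set.Finite.subset ((hR.prod hR).biUnion fun p _ => ?_) h1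
  refine Set.Subsingleton.finite ?_
  rintro t ⟨ht, ht0⟩ t' ⟨_, ht0'⟩
  by_contra hne
  have hA : ((b3 - b1) * (1 - p.1) - (b2 - b1) * (1 - p.2)) * (t - t') = 0 := by
    linear_combination ht0 - ht0'
  have hA' := (mul_eq_zero.1 hA).resolve_right (sub_ne_zero.2 hne)
  have hB : (b3 - b1) * (-b1 + p.1 * b2) - (b2 - b1) * (-b1 + p.2 * b3) = 0 := by
    linear_combination ht0 - t * hA'
  have q1 : (b3 - b1) * ((b2 - b1) * (p.1 - p.2)) = 0 := by
    linear_combination b1 * hA' + hB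
  have q2 : (b2 - b1) * ((b3 - b2) * (1 - p.2)) = 0 := by
    linear_combination b2 * hA' + hB
  have e1 : p.1 = p.2 := by
    have := (mul_eq_zero.1 ((mul_eq_zero.1 q1).resolve_left (sub_ne_zero.2 h13))).resolve_left
      (sub_ne_zero.2 h12)
    exact sub_eq_zero.1 this
  have e2 : p.2 = 1 := by
    have := (mul_eq_zero.1 ((mul_eq_zero.1 q2).resolve_left (sub_ne_zero.2 h12))).resolve_left
      (sub_ne_zero.2 h23)
    exact (sub_eq_zero.1 this).symm
  rcases ht with h | h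
  · exact h (e1.trans e2)
  · exact h e2

section pattern

variable {ι : Type} [Fintype ι]

open Classical in
/-- Existence of the curve. -/
theorem exists_curve (hd : n + 1 ≤ d) {ℓ : Fin d → Fin (n + 1) → ℂ}
    (general : ∀ s : Finset (Fin d), s.card ≤ n + 1 → LinearIndependent ℂ (fun j : s => ℓ j))
    {x : Fin (n + 1) → ℂ} (hx : ∀ j, ∑ i, ℓ j i * x i ≠ 0)
    (hx2 : ∀ J J' : Finset (Fin d), J.card + J'.card = n + 2 → J.Nonempty → J'.Nonempty →
      ∀ y : Fin (n + 1) → ℂ, (∀ j ∈ J, ∑ i, ℓ j i * y i = 0) →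
        ¬ ∀ j ∈ J', ∑ i, ℓ j i * (x i - y i) = 0)
    {e : ℕ} (he : e ≠ 0) (σ : ι → Fin d) (τ : ι → ℕ) (hτ : ∀ i, 1 ≤ τ i)
    (hsum : ∀ j, ∑ i ∈ Finset.univ.filter (fun i => σ i = j), τ i = e)
    (hcard : (d - (n + 1)) * e + 1 < Fintype.card ι)
    (A : Finset (Fin d)) (hA : n + 2 ≤ A.card)
    (hA' : ∀ j ∈ A, ∃ i, Finset.univ.filter (fun i => σ i = j) = {i}) :
    ∃ (γ : RatCurve n) (α : ι → ℂ), γ.e = e ∧ γ.val none = x ∧ γ.Birational ∧
      ∀ j, γ.pull (ℓ j) = C (∑ i, ℓ j i * x i) * gp σ τ α j := by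
  have hι : Nonempty ι := Fintype.card_pos_iff.1 (by omega)
  obtain ⟨i₀⟩ := hι
  obtain ⟨α, hα, hα0, f, hf1, hf2, hf3⟩ := exists_solution hd general x σ τ i₀ hsum hcard
  have hβ : ∀ j, ∃ β : ℂ, j ∈ A → gp σ τ α j = (X - C β) ^ e := by
    intro j
    by_cases hj : j ∈ A
    · obtain ⟨i, hi⟩ := hA' j hj
      have h1 := hsum j
      rw [hi, Finset.sum_singleton] at h1
      refine ⟨α i, fun _ => ?_⟩
      rw [gp, hi, Finset.prod_singleton, h1]
    · exact ⟨0, fun h => absurd h hj⟩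
  choose β hβ using hβ
  -- not constant
  have claim1 : ∀ A' : Finset (Fin d), A' ⊆ A → n + 1 ≤ A'.card → ∀ b : ℂ, ∃ j ∈ A', β j ≠ b := by
    intro A' hA'A hcA b
    by_contra hcon
    push Not at hcon
    have h1 : f = fun i => C (x i) * (X - C b) ^ e := by
      refine eq_of_forms general hcA fun j hj => ?_
      rw [hf3, hβ j (hA'A hj), hcon j hj, map_sum, Finset.sum_mul]
      refine Finset.sum_congr rfl fun i _ => ?_
      rw [C_mul, mul_assoc]
    have h2 : ∀ j, gp σ τ α j = (X - C b) ^ e := by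
      intro j
      have h3 := hf3 j
      rw [h1] at h3
      have h4 : ∑ i, C (ℓ j i) * (C (x i) * (X - C b) ^ e) =
          C (∑ i, ℓ j i * x i) * (X - C b) ^ e := by
        rw [map_sum, Finset.sum_mul]
        refine Finset.sum_congr rfl fun i _ => ?_
        rw [C_mul, mul_assoc]
      rw [h4] at h3
      exact (mul_left_cancel₀ (C_ne_zero.2 (hx j)) h3).symm
    have h3 : ∀ i, α i = b := by
      intro i
      have h4 := congrArg (eval (α i)) (h2 (σ i))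
      rw [gp, eval_prod, Finset.prod_eq_zero (i := i) (by simp) (by
        simp [show τ i ≠ 0 from by have := hτ i; omega])] at h4
      simp only [eval_pow, eval_sub, eval_X, eval_C] at h4
      exact sub_eq_zero.1 ((pow_eq_zero_iff he).1 h4.symm)
    apply hα
    funext i
    rw [h3 i, ← h3 i₀, hα0]
    rfl
  have hval : ∀ (b : ℂ) j, ∑ i, ℓ j i * (f i).eval b =
      (∑ i, ℓ j i * x i) * (gp σ τ α j).eval b := by
    intro b j
    have h1 := congrArg (eval b) (hf3 j)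
    simpa [eval_finsetSum] using h1
  -- no base points
  have claim2 : ∀ b : ℂ, ∃ i, (f i).eval b ≠ 0 := by
    intro b
    by_contra hcon
    push Not at hcon
    obtain ⟨j, hj, hjb⟩ := claim1 A (Finset.Subset.refl _) (by omega) b
    apply hjb
    have h1 := hval b j
    rw [Finset.sum_eq_zero fun i _ => by rw [hcon i, mul_zero], hβ j hj] at h1
    have h2 := (mul_eq_zero.1 h1.symm).resolve_left (hx j)
    simp only [eval_pow, eval_sub, eval_X, eval_C] at h2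
    exact (sub_eq_zero.1 ((pow_eq_zero_iff he).1 h2)).symm
  have hx0 : x ≠ 0 := by
    intro h0
    have hdp : 0 < d := by omega
    apply hx ⟨0, hdp⟩
    rw [h0]
    simp
  let γ : RatCurve n := ⟨e, f, hf1, by
    obtain ⟨i, hi⟩ := Function.ne_iff.1 hx0
    exact ⟨i, by rw [hf2]; exact hi⟩, claim2⟩
  refine ⟨γ, α, rfl, funext hf2, ?_, hf3⟩
  -- three distinct values
  obtain ⟨A₀, hA₀, hA₀c⟩ := Finset.exists_subset_card_eq hA
  have claim3 : ∃ j1 ∈ A, ∃ j2 ∈ A, ∃ j3 ∈ A, β j2 ≠ β j1 ∧ β j3 ≠ β j1 ∧ β j3 ≠ β j2 := by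
    obtain ⟨j1, hj1⟩ : A₀.Nonempty := Finset.card_pos.1 (by omega)
    obtain ⟨j2, hj2, h12⟩ := claim1 A₀ hA₀ (by omega) (β j1)
    by_contra hcon
    push Not at hcon
    have h3 : ∀ j ∈ A₀, β j ≠ β j1 → β j = β j2 := fun j hj hne =>
      hcon j1 (hA₀ hj1) j2 (hA₀ hj2) j (hA₀ hj) h12 hne
    refine hx2 (A₀.filter fun j => β j = β j1) (A₀.filter fun j => ¬ β j = β j1) ?_
      ⟨j1, by simp [hj1]⟩ ⟨j2, by simp [hj2, h12]⟩
      (fun i => ((f i).eval (β j1)) / (β j1 - β j2) ^ e) ?_ ?_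
    · rw [Finset.card_filter_add_card_filter_not, hA₀c]
    · intro j hj
      rw [Finset.mem_filter] at hj
      have h4 := hval (β j1) j
      rw [hβ j (hA₀ hj.1), hj.2] at h4
      simp only [eval_pow, eval_sub, eval_X, eval_C, sub_self, zero_pow he, mul_zero] at h4
      simp only [← mul_div_assoc]
      rw [← Finset.sum_div, h4, zero_div]
    · intro j hj
      rw [Finset.mem_filter] at hj
      have h4 := hval (β j1) j
      rw [hβ j (hA₀ hj.1), h3 j hj.1 hj.2] at h4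
      simp only [eval_pow, eval_sub, eval_X, eval_C] at h4
      simp only [mul_sub, Finset.sum_sub_distrib, ← mul_div_assoc]
      rw [← Finset.sum_div, h4, mul_div_assoc, div_self (pow_ne_zero _ (sub_ne_zero.2 (Ne.symm h12))),
        mul_one, sub_self]
  obtain ⟨j1, hj1, j2, hj2, j3, hj3, h12, h13, h23⟩ := claim3
  refine ⟨{none, some (β j1), some (β j2), some (β j3)} ∪ some '' {t : ℂ | ∃ ζ ξ : ℂ, ζ ^ e = 1 ∧
    ξ ^ e = 1 ∧ (ζ ≠ 1 ∨ ξ ≠ 1) ∧
      (β j3 - β j1) * ((t - β j1) - ζ * (t - β j2)) -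
        (β j2 - β j1) * ((t - β j1) - ξ * (t - β j3)) = 0},
    Set.Finite.union (by simp) ((finite_bad he h12 h13 h23).image _), fun a ha b hb => ?_⟩
  rintro ⟨r, hr⟩
  rcases a with _ | s
  · exact absurd (Or.inl (by simp)) ha
  rcases b with _ | t
  · exact absurd (Or.inl (by simp)) hb
  have hst : ∀ i, (f i).eval s = r * (f i).eval t := fun i => congrFun hr i
  have hr0 : r ≠ 0 := by
    intro h0
    obtain ⟨i, hi⟩ := claim2 s
    apply hi
    rw [hst, h0, zero_mul]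
  have hk : ∀ j ∈ A, (s - β j) ^ e = r * (t - β j) ^ e := by
    intro j hj
    have h1 := hval s j
    have h2 := hval t j
    simp only [hst] at h1
    have h3 : ∑ i, ℓ j i * (r * (f i).eval t) = r * ∑ i, ℓ j i * (f i).eval t := by
      rw [Finset.mul_sum]
      exact Finset.sum_congr rfl fun i _ => by ring
    rw [h3, h2, hβ j hj] at h1
    simp only [eval_pow, eval_sub, eval_X, eval_C] at h1
    have h4 : (∑ i, ℓ j i * x i) * ((s - β j) ^ e) = (∑ i, ℓ j i * x i) * (r * (t - β j) ^ e) := by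
      rw [← h1]
      ring
    exact mul_left_cancel₀ (hx j) h4
  have t1 : t ≠ β j1 := fun h => hb (Or.inl (by simp [h]))
  have t2 : t ≠ β j2 := fun h => hb (Or.inl (by simp [h]))
  have t3 : t ≠ β j3 := fun h => hb (Or.inl (by simp [h]))
  rcases two_points he h12 (hk j1 hj1) (hk j2 hj2) (hk j3 hj3) hr0 t1 t2 t3 with h | h
  · rw [h]
  · exact absurd (Or.inr ⟨t, h, rfl⟩) hb

end pattern

end Pool.Agent.KS6_82.OU
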