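import Mathlib
import Pool.Agent.KS6_82.OU.CurveB

/-!
# Orbifold rational curves from patterns
-/

set_option autoImplicit false

namespace Pool.Agent.KS6_82.OU

open Polynomial

variable {n d : ℕ}

/-- the common zeros of the forms of a set -/
noncomputable def Wsp (ℓ : Fin d → Fin (n + 1) → ℂ) (J : Finset (Fin d)) :
    Submodule ℂ (Fin (n + 1) → ℂ) :=
  LinearMap.ker (Matrix.of fun j : J => ℓ j).mulVecLin

theorem mem_Wsp (ℓ : Fin d → Fin (n + 1) → ℂ) (J : Finset (Fin d)) (y : Fin (n + 1) → ℂ) :
    y ∈ Wsp ℓ J ↔ ∀ j ∈ J, ∑ i, ℓ j i * y i = 0 := by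
  rw [Wsp, LinearMap.mem_ker]
  constructor
  · intro h j hj
    exact congrFun h ⟨j, hj⟩
  · intro h
    funext j
    exact h j j.2

theorem finrank_Wsp {ℓ : Fin d → Fin (n + 1) → ℂ}
    (general : ∀ s : Finset (Fin d), s.card ≤ n + 1 → LinearIndependent ℂ (fun j : s => ℓ j))
    {J : Finset (Fin d)} (hJ : J.card ≤ n + 1) :
    J.card + Module.finrank ℂ (Wsp ℓ J) = n + 1 := by
  have h1 := LinearMap.finrank_range_add_finrank_ker (Matrix.of fun j : J => ℓ j).mulVecLin
  have h2 : (Matrix.of fun j : J => ℓ j).rank = Fintype.card J :=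
    LinearIndependent.rank_matrix (M := Matrix.of fun j : J => ℓ j) (general J hJ)
  rw [Matrix.rank] at h2
  rw [h2, Fintype.card_coe, Module.finrank_fintype_fun_eq_card, Fintype.card_fin] at h1
  exact h1

theorem exists_form {ℓ : Fin d → Fin (n + 1) → ℂ}
    (general : ∀ s : Finset (Fin d), s.card ≤ n + 1 → LinearIndependent ℂ (fun j : s => ℓ j))
    (J J' : Finset (Fin d)) :
    ∃ w : Fin (n + 1) → ℂ, w ≠ 0 ∧ (J.card + J'.card = n + 2 → J.Nonempty → J'.Nonempty →
      ∀ y z : Fin (n + 1) → ℂ, (∀ j ∈ J, ∑ i, ℓ j i * y i = 0) → (∀ j ∈ J', ∑ i, ℓ j i * z i = 0) →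
        ∑ i, w i * (y i + z i) = 0) := by
  classical
  by_cases h : J.card + J'.card = n + 2 ∧ J.Nonempty ∧ J'.Nonempty
  · obtain ⟨h1, h2, h3⟩ := h
    have c1 := Finset.card_pos.2 h2
    have c2 := Finset.card_pos.2 h3
    have f1 := finrank_Wsp general (J := J) (by omega)
    have f2 := finrank_Wsp general (J := J') (by omega)
    have f3 := Submodule.finrank_add_le_finrank_add_finrank (Wsp ℓ J) (Wsp ℓ J')
    have hlt : Wsp ℓ J ⊔ Wsp ℓ J' < ⊤ := by
      rw [lt_top_iff_ne_top]
      intro htop
      rw [htop, finrank_top] at f3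
      simp only [Module.finrank_fintype_fun_eq_card, Fintype.card_fin] at f3
      omega
    obtain ⟨φ, hφ, hle⟩ := Submodule.exists_le_ker_of_lt_top _ hlt
    have hφy : ∀ y : Fin (n + 1) → ℂ, φ y = ∑ i, φ (Pi.single i 1) * y i := by
      intro y
      have h4 : y = ∑ i, y i • (Pi.single i (1 : ℂ) : Fin (n + 1) → ℂ) := by
        funext k
        rw [Finset.sum_apply, Finset.sum_eq_single k]
        · simp
        · intro i _ hi
          simp [Pi.single_eq_of_ne (Ne.symm hi)]
        · intro h
          exact absurd (Finset.mem_univ _) h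
      conv_lhs => rw [h4]
      rw [map_sum]
      refine Finset.sum_congr rfl fun i _ => ?_
      rw [map_smul, smul_eq_mul, mul_comm]
    refine ⟨fun i => φ (Pi.single i 1), ?_, fun _ _ _ y z hy hz => ?_⟩
    · intro h0
      apply hφ
      refine LinearMap.ext fun y => ?_
      rw [hφy]
      refine Finset.sum_eq_zero fun i _ => ?_
      have := congrFun h0 i
      simp only [Pi.zero_apply] at this
      rw [this, zero_mul]
    · have h4 : y + z ∈ Wsp ℓ J ⊔ Wsp ℓ J' :=
        Submodule.add_mem_sup ((mem_Wsp ℓ J y).2 hy) ((mem_Wsp ℓ J' z).2 hz)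
      have h5 := LinearMap.mem_ker.1 (hle h4)
      rw [hφy] at h5
      exact h5
  · refine ⟨Pi.single 0 1, ?_, fun h1 h2 h3 => absurd ⟨h1, h2, h3⟩ h⟩
    intro h0
    have := congrFun h0 0
    simp at this

section pattern

variable {ι : Type} [Fintype ι]

open Classical in
/-- A pattern of slots whose total cost is less than `2` gives orbifold rational curves. -/
theorem uniruled_of_pattern (hd : n + 1 ≤ d) (P : HypOrbifold n d) {c : ℚ} (hc1 : c ≤ 1)
    (hc : ∀ j, P.c j ≤ c) {e : ℕ} (he : e ≠ 0) (σ : ι → Fin d) (τ : ι → ℕ) (hτ : ∀ i, 1 ≤ τ i)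
    (hsum : ∀ j, ∑ i ∈ Finset.univ.filter (fun i => σ i = j), τ i = e)
    (hcard : (d - (n + 1)) * e + 1 < Fintype.card ι)
    (A : Finset (Fin d)) (hA : n + 2 ≤ A.card)
    (hA' : ∀ j ∈ A, ∃ i, Finset.univ.filter (fun i => σ i = j) = {i})
    (hcost : ∑ i, max 0 (1 - (1 - c) * τ i) < 2) : P.IsUniruledWith P.multMin := by
  choose w hw0 hw using exists_form P.general
  refine veryGeneral_forms (ι := Fin d ⊕ (Finset (Fin d) × Finset (Fin d)))
    (Sum.elim P.ℓ fun p => w p.1 p.2) ?_ fun x hx hgen => ?_
  · rintro (j | p)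
    · exact ℓ_ne_zero P j
    · exact hw0 _ _
  have hx1 : ∀ j, ∑ i, P.ℓ j i * x i ≠ 0 := fun j => hgen (Sum.inl j)
  obtain ⟨γ, α, h1, h2, h3, h4⟩ := exists_curve hd P.general hx1 (fun J J' hc hJ hJ' y hy hy' => by
    refine hgen (Sum.inr (J, J')) ?_
    have h1 := hw J J' hc hJ hJ' y (fun i => x i - y i) hy hy'
    simp only [add_sub_cancel] at h1
    exact h1) he σ τ hτ hsum hcard A hA hA'
  have hp : ∀ j, γ.pull (P.ℓ j) ≠ 0 := by
    intro j
    rw [h4]
    exact mul_ne_zero (C_ne_zero.2 (hx1 j)) (gp_monic σ τ α j).ne_zero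
  refine ⟨γ, by omega, h3, hp, ?_, none, 1, one_ne_zero, by rw [one_smul, h2]⟩
  refine degC_neg_of_slots P γ hp hc1 hc (fun i => some (α i)) τ hτ (fun a j haj => ?_) hcost
  rcases a with _ | b
  · rw [h2] at haj
    exact absurd haj (hx1 j)
  · rw [RatCurve.sum_val_some, h4, eval_mul, eval_C] at haj
    have h5 := (mul_eq_zero.1 haj).resolve_left (hx1 j)
    rw [gp, eval_prod, Finset.prod_eq_zero_iff] at h5
    obtain ⟨i, hi, hi0⟩ := h5
    have h6 : b = α i := by
      simp only [eval_pow, eval_sub, eval_X, eval_C] at hi0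
      exact sub_eq_zero.1 (eq_zero_of_pow_eq_zero hi0)
    refine ⟨i, by rw [h6], ?_⟩
    change τ i ≤ (γ.pull (P.ℓ j)).rootMultiplicity b
    rw [le_rootMultiplicity_iff (hp j), h4, h6]
    refine Dvd.dvd.mul_left ?_ _
    exact Finset.dvd_prod_of_mem (fun i => (X - C (α i)) ^ τ i) hi

end pattern

/-! ### The patterns -/

open Classical in
/-- The pattern with one hyperplane split. -/
theorem uniruled_split (hd : n + 2 ≤ d) (P : HypOrbifold n d) {c : ℚ} (hc0 : 0 ≤ c) (hc1 : c ≤ 1)
    (hc : ∀ j, P.c j ≤ c) {e r : ℕ} (hr : r ≤ 2) (hre : r < e)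
    (hde : d + r = (d - (n + 1)) * e + 2) (hdr : r = 0 ∨ n + 3 ≤ d)
    (hcd : (d - n - 1 : ℚ) < d * (1 - c)) : P.IsUniruledWith P.multMin := by
  have hd0 : 0 < d := by omega
  let z : Fin d := ⟨0, hd0⟩
  let σ : Fin d ⊕ Fin r → Fin d := Sum.elim id fun _ => z
  let τ : Fin d ⊕ Fin r → ℕ := Sum.elim (fun j => if j = z then e - r else e) fun _ => 1
  have hfilter : ∀ j, j ≠ z → Finset.univ.filter (fun i => σ i = j) = {Sum.inl j} := by
    intro j hj
    ext i
    rw [Finset.mem_filter, Finset.mem_singleton]
    rcases i with i | i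
    · simp [σ]
    · simp only [σ, Sum.elim_inr, Finset.mem_univ, true_and, reduceCtorEq, iff_false]
      exact fun h => hj h.symm
  refine uniruled_of_pattern (by omega) P hc1 hc (e := e) (by omega) σ τ ?_ ?_ ?_
    (if r = 0 then Finset.univ else Finset.univ.erase z) ?_ ?_ ?_
  · rintro (j | k)
    · simp only [τ, Sum.elim_inl]
      split_ifs <;> omega
    · exact le_rfl
  · intro j
    by_cases hj : j = z
    · rw [Finset.sum_filter, Fintype.sum_sum_type, Finset.sum_eq_single z]
      · simp only [σ, τ, Sum.elim_inl, Sum.elim_inr, id, hj, if_true, Finset.sum_const,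
          Finset.card_univ, Fintype.card_fin, smul_eq_mul, mul_one]
        omega
      · intro i _ hi
        exact if_neg (fun h => hi (Eq.trans h hj))
      · intro h
        exact absurd (Finset.mem_univ _) h
    · rw [hfilter j hj, Finset.sum_singleton]
      simp [τ, hj]
  · rw [Fintype.card_sum, Fintype.card_fin, Fintype.card_fin]
    omega
  · split_ifs with h
    · simpa using hd
    · rw [Finset.card_erase_of_mem (Finset.mem_univ _), Finset.card_univ, Fintype.card_fin]
      omega
  · intro j hj
    split_ifs at hj with h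
    · refine ⟨Sum.inl j, ?_⟩
      subst h
      ext i
      rw [Finset.mem_filter, Finset.mem_singleton]
      rcases i with i | i
      · simp [σ]
      · exact i.elim0
    · exact ⟨_, hfilter j (Finset.ne_of_mem_erase hj)⟩
  · rw [Fintype.sum_sum_type, ← Finset.add_sum_erase _ _ (Finset.mem_univ z)]
    have h1 : ∑ j ∈ Finset.univ.erase z, max 0 (1 - (1 - c) * (τ (Sum.inl j) : ℚ)) =
        (d - 1) * max 0 (1 - (1 - c) * (e : ℚ)) := by
      have h2 : ∀ j ∈ Finset.univ.erase z, max 0 (1 - (1 - c) * (τ (Sum.inl j) : ℚ)) =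
          max 0 (1 - (1 - c) * (e : ℚ)) := by
        intro j hj
        simp only [τ, Sum.elim_inl]
        rw [if_neg (Finset.ne_of_mem_erase hj)]
      rw [Finset.sum_congr rfl h2, Finset.sum_const, nsmul_eq_mul,
        Finset.card_erase_of_mem (Finset.mem_univ _), Finset.card_univ, Fintype.card_fin,
        Nat.cast_sub hd0]
      simp
    have h2 : τ (Sum.inl z) = e - r := by simp [τ]
    have h3 : ∑ k : Fin r, max 0 (1 - (1 - c) * (τ (Sum.inr k) : ℚ)) = r * c := by
      simp only [τ, Sum.elim_inr, Finset.sum_const, Finset.card_univ, Fintype.card_fin,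
        nsmul_eq_mul]
      congr 1
      push_cast
      rw [max_eq_right] <;> linarith
    rw [h1, h2, h3, Nat.cast_sub hre.le]
    have hde' : (d : ℚ) + r = (d - n - 1) * e + 2 := by
      have h4 : ((d - (n + 1) : ℕ) : ℚ) = d - n - 1 := by
        rw [Nat.cast_sub (by omega)]
        push_cast
        ring
      rw [← h4]
      exact_mod_cast hde
    have he0 : (0 : ℚ) < e := by
      have : 0 < e := by omega
      exact_mod_cast this
    have hr' : (r : ℚ) ≤ 2 := by exact_mod_cast hr
    have hr0 : (0 : ℚ) ≤ r := Nat.cast_nonneg _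
    have hu0 : 0 ≤ 1 - c := by linarith
    have hd1 : (1 : ℚ) ≤ d := by exact_mod_cast hd0
    rcases le_or_gt ((1 - c) * e) 1 with hue | hue
    · have hm1 : max 0 (1 - (1 - c) * (e : ℚ)) = 1 - (1 - c) * e := max_eq_right (by linarith)
      have hm2 : max 0 (1 - (1 - c) * ((e : ℚ) - r)) = 1 - (1 - c) * ((e : ℚ) - r) :=
        max_eq_right (by nlinarith [mul_nonneg hu0 hr0])
      rw [hm1, hm2]
      nlinarith [mul_lt_mul_of_pos_right hcd he0]
    · have hm1 : max 0 (1 - (1 - c) * (e : ℚ)) = 0 := max_eq_left (by linarith)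
      rw [hm1, mul_zero, add_zero]
      have hc_lt : c < 1 := by
        by_contra hcon
        have : c = 1 := le_antisymm hc1 (not_lt.1 hcon)
        rw [this] at hue
        norm_num at hue
      rcases le_total 0 (1 - (1 - c) * ((e : ℚ) - r)) with h4 | h4
      · rw [max_eq_right h4]
        interval_cases r
        · push_cast at *
          nlinarith
        · push_cast at *
          nlinarith
        · push_cast at *
          nlinarith
      · rw [max_eq_left h4]
        nlinarith

open Classical in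
/-- The conics. -/
theorem uniruled_conic (hn : 2 ≤ n) (hd : 2 * n + 2 ≤ d) (P : HypOrbifold n d) {c : ℚ}
    (hc0 : 0 ≤ c) (hc1 : c ≤ 1) (hc : ∀ j, P.c j ≤ c) (hcd : (d - 2 * n : ℚ) * c < 1) :
    P.IsUniruledWith P.multMin := by
  let ψ : Fin (d - 2 * n) → Fin d := fun k => ⟨2 * n + k, by have := k.2; omega⟩
  let σ : Fin d ⊕ Fin (d - 2 * n) → Fin d := Sum.elim id ψ
  let τ : Fin d ⊕ Fin (d - 2 * n) → ℕ := Sum.elim (fun j => if (j : ℕ) < 2 * n then 2 else 1)
    fun _ => 1
  have hd' : (2 * n + 2 : ℚ) ≤ d := by exact_mod_cast hd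
  have hc2 : c < 1 / 2 := by nlinarith
  refine uniruled_of_pattern (by omega) P hc1 hc (e := 2) (by omega) σ τ ?_ ?_ ?_
    (Finset.univ.filter fun j : Fin d => (j : ℕ) < 2 * n) ?_ ?_ ?_
  · rintro (j | k)
    · simp only [τ, Sum.elim_inl]
      split_ifs <;> omega
    · exact le_rfl
  · intro j
    rw [Finset.sum_filter, Fintype.sum_sum_type]
    have h1 : ∑ i : Fin d, (if σ (Sum.inl i) = j then τ (Sum.inl i) else 0) =
        if (j : ℕ) < 2 * n then 2 else 1 := by
      rw [Finset.sum_eq_single j]
      · exact if_pos rfl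
      · intro i _ hi
        exact if_neg hi
      · intro h
        exact absurd (Finset.mem_univ _) h
    have h2 : ∑ k : Fin (d - 2 * n), (if σ (Sum.inr k) = j then τ (Sum.inr k) else 0) =
        if (j : ℕ) < 2 * n then 0 else 1 := by
      split_ifs with hj
      · refine Finset.sum_eq_zero fun k _ => ?_
        rw [if_neg]
        intro h
        have := congrArg Fin.val h
        simp only [σ, ψ, Sum.elim_inr] at this
        omega
      · have hj2 := j.2
        rw [Finset.sum_eq_single ⟨(j : ℕ) - 2 * n, by omega⟩]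
        · rw [if_pos]
          · simp [τ]
          · apply Fin.ext
            simp only [σ, ψ, Sum.elim_inr]
            omega
        · intro k _ hk
          rw [if_neg]
          intro h
          apply hk
          have := congrArg Fin.val h
          simp only [σ, ψ, Sum.elim_inr] at this
          apply Fin.ext
          simp only
          omega
        · intro h
          exact absurd (Finset.mem_univ _) h
    rw [h1, h2]
    split_ifs <;> rfl
  · rw [Fintype.card_sum, Fintype.card_fin, Fintype.card_fin]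
    omega
  · have h1 : (Finset.univ.filter fun j : Fin d => (j : ℕ) < 2 * n).card = 2 * n := by
      rw [← Finset.card_image_of_injective _ Fin.val_injective]
      have : (Finset.univ.filter fun j : Fin d => (j : ℕ) < 2 * n).image Fin.val =
          Finset.range (2 * n) := by
        ext k
        simp only [Finset.mem_image, Finset.mem_filter, Finset.mem_univ, true_and,
          Finset.mem_range]
        constructor
        · rintro ⟨j, hj, rfl⟩
          exact hj
        · intro hk
          exact ⟨⟨k, by omega⟩, hk, rfl⟩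
      rw [this, Finset.card_range]
    omega
  · intro j hj
    refine ⟨Sum.inl j, ?_⟩
    have hj' := (Finset.mem_filter.1 hj).2
    ext i
    rw [Finset.mem_filter, Finset.mem_singleton]
    rcases i with i | i
    · simp [σ]
    · simp only [σ, Sum.elim_inr, Finset.mem_univ, true_and, reduceCtorEq, iff_false]
      intro h
      have := congrArg Fin.val h
      simp only [ψ] at this
      omega
  · rw [Fintype.sum_sum_type]
    have h1 : ∀ j : Fin d, max 0 (1 - (1 - c) * (τ (Sum.inl j) : ℚ)) =
        if (j : ℕ) < 2 * n then 0 else c := by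
      intro j
      simp only [τ, Sum.elim_inl]
      split_ifs
      · rw [max_eq_left]
        push_cast
        linarith
      · push_cast
        rw [max_eq_right] <;> linarith
    have h2 : ∀ k : Fin (d - 2 * n), max 0 (1 - (1 - c) * (τ (Sum.inr k) : ℚ)) = c := by
      intro k
      simp only [τ, Sum.elim_inr]
      push_cast
      rw [max_eq_right] <;> linarith
    rw [Finset.sum_congr rfl fun j _ => h1 j, Finset.sum_congr rfl fun j _ => h2 j,
      Finset.sum_ite, Finset.sum_const_zero, zero_add, Finset.sum_const, Finset.sum_const,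
      nsmul_eq_mul, nsmul_eq_mul, Finset.card_univ, Fintype.card_fin]
    have h3 : (Finset.univ.filter fun j : Fin d => ¬ (j : ℕ) < 2 * n).card = d - 2 * n := by
      rw [← Finset.card_image_of_injective _ Fin.val_injective]
      have : (Finset.univ.filter fun j : Fin d => ¬ (j : ℕ) < 2 * n).image Fin.val =
          Finset.Ico (2 * n) d := by
        ext k
        simp only [Finset.mem_image, Finset.mem_filter, Finset.mem_univ, true_and,
          Finset.mem_Ico]
        constructor
        · rintro ⟨j, hj, rfl⟩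
          exact ⟨by omega, j.2⟩
        · intro hk
          exact ⟨⟨k, by omega⟩, by simp only; omega, rfl⟩
      rw [this, Nat.card_Ico]
    rw [h3, Nat.cast_sub (by omega)]
    push_cast
    linarith

end Pool.Agent.KS6_82.OU
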