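import Mathlib
import Pool.Agent.KS6_82.OU.Pattern

/-!
# Uniruledness and weak uniruledness of `(P^n, c (H_1 + ... + H_d))`
-/

set_option autoImplicit false

namespace Pool.Agent.KS6_82.OU

open Polynomial

variable {n d : ℕ}

/-- Hyperplanes in general position, from the rational normal curve. -/
theorem exists_orbifold (n d : ℕ) (c : ℚ) (hc0 : 0 < c) (hc1 : c ≤ 1) :
    ∃ P : HypOrbifold n d, ∀ j, P.c j = c := by
  classical
  refine ⟨⟨fun j i => ((j : ℕ) : ℂ) ^ (i : ℕ), fun s hs => ?_, fun _ => c, fun _ => hc0,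
    fun _ => hc1⟩, fun _ => rfl⟩
  rw [Fintype.linearIndependent_iff]
  intro g hg j0
  have h1 : ∀ p : ℂ[X], p.natDegree ≤ n → ∑ j : s, g j * p.eval ((j : Fin d) : ℂ) = 0 := by
    intro p hp
    have h2 : ∀ j : s, p.eval (((j : Fin d) : ℕ) : ℂ) =
        ∑ i : Fin (n + 1), p.coeff i * (((j : Fin d) : ℕ) : ℂ) ^ (i : ℕ) := by
      intro j
      rw [eval_eq_sum_range' (Nat.lt_succ_of_le hp), Finset.sum_range]
    have h3 : ∀ i : Fin (n + 1), ∑ j : s, g j * (((j : Fin d) : ℕ) : ℂ) ^ (i : ℕ) = 0 := by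
      intro i
      have := congrFun hg i
      simpa using this
    calc ∑ j : s, g j * p.eval ((j : Fin d) : ℂ)
        = ∑ j : s, ∑ i : Fin (n + 1), p.coeff i * (g j * (((j : Fin d) : ℕ) : ℂ) ^ (i : ℕ)) := by
          refine Finset.sum_congr rfl fun j _ => ?_
          rw [h2, Finset.mul_sum]
          exact Finset.sum_congr rfl fun i _ => by ring
      _ = ∑ i : Fin (n + 1), p.coeff i * ∑ j : s, g j * (((j : Fin d) : ℕ) : ℂ) ^ (i : ℕ) := by
          rw [Finset.sum_comm]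
          exact Finset.sum_congr rfl fun i _ => by rw [Finset.mul_sum]
      _ = 0 := Finset.sum_eq_zero fun i _ => by rw [h3, mul_zero]
  have h4 := h1 (∏ j ∈ Finset.univ.erase j0, (X - C (((j : Fin d) : ℕ) : ℂ))) (by
    rw [natDegree_prod_of_monic _ _ fun i _ => monic_X_sub_C _]
    simp only [natDegree_X_sub_C, Finset.sum_const, smul_eq_mul, mul_one]
    rw [Finset.card_erase_of_mem (Finset.mem_univ _), Finset.card_univ, Fintype.card_coe]
    omega)
  rw [Finset.sum_eq_single j0] at h4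
  · refine (mul_eq_zero.1 h4).resolve_right ?_
    rw [eval_prod]
    refine Finset.prod_ne_zero_iff.2 ?_
    intro j hj
    simp only [eval_sub, eval_X, eval_C]
    rw [sub_ne_zero]
    intro h
    have h5 : ((j0 : Fin d) : ℕ) = ((j : Fin d) : ℕ) := by exact_mod_cast h
    exact Finset.ne_of_mem_erase hj (Subtype.ext (Fin.ext h5)).symm
  · intro j _ hj
    rw [eval_prod, Finset.prod_eq_zero (i := j) (Finset.mem_erase.2 ⟨hj, Finset.mem_univ _⟩)]
    · rw [mul_zero]
    · simp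
  · intro h
    exact absurd (Finset.mem_univ _) h

theorem degKD_eq (P : HypOrbifold n d) {c : ℚ} (hc : ∀ j, P.c j = c) :
    P.degKD = -(n + 1) + d * c := by
  simp [HypOrbifold.degKD, hc]

theorem le_d_of_psef (P : HypOrbifold n d) (hK : 0 ≤ P.degKD) : n + 1 ≤ d := by
  unfold HypOrbifold.degKD at hK
  have h1 : ∑ j, P.c j ≤ d := by
    calc ∑ j, P.c j ≤ ∑ _j : Fin d, (1 : ℚ) := Finset.sum_le_sum fun j _ => P.c_le_one j
      _ = d := by simp
  have h2 : ((n + 1 : ℕ) : ℚ) ≤ d := by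
    push_cast
    linarith
  exact_mod_cast h2

theorem estimate (hn : 1 ≤ n) (hd : n + 1 ≤ d) (P : HypOrbifold n d) :
    VeryGeneral fun x => ∀ γ : RatCurve n, 1 ≤ γ.e → (∀ j, γ.pull (P.ℓ j) ≠ 0) → γ.Through x →
    d * γ.e + 2 ≤ (n + 1) * γ.e + (sup P γ).card := by
  refine (veryGeneral_estimate hn hd P.general).mono fun x _ h γ h1 h2 h3 => ?_
  have := h γ h1 h2 h3
  unfold sup
  convert this

theorem weakly_iff (hn : 1 ≤ n) (P : HypOrbifold n d) : P.IsWeaklyUniruled ↔ P.degKD < 0 := by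
  constructor
  · intro h
    obtain ⟨x, _, ⟨γ, h1, _, h2, _⟩, -⟩ := VeryGeneral.exists_common h h
    have h3 : (0 : ℚ) < γ.e := by exact_mod_cast h1
    by_contra hcon
    exact absurd h2 (not_lt.2 (mul_nonneg h3.le (not_lt.1 hcon)))
  · intro h
    refine (lines_aux hn P).mono fun x _ => ?_
    rintro ⟨γ, α, he, hbir, hth, _, _⟩
    refine ⟨γ, he.ge, hbir, ?_, hth⟩
    rw [he]
    simpa using h

theorem uniruled_imp (hn : 1 ≤ n) (P : HypOrbifold n d) (h : P.IsUniruledWith P.multMin) :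
    P.degKD < 0 := by
  by_contra hcon
  have hK := not_lt.1 hcon
  obtain ⟨x, _, ⟨γ, h1, _, h2, h3, h4⟩, h5⟩ :=
    VeryGeneral.exists_common h (estimate hn (le_d_of_psef P hK) P)
  exact absurd (low_psef P γ h2 (h5 γ h1 h2 h4) hK) (not_le.2 h3)

/-- the lower bounds for many hyperplanes -/
theorem lower_big (hn : 1 ≤ n) (hd : 2 * n + 3 ≤ d) (P : HypOrbifold n d)
    (hc : ∀ j, max (2 / (d - n + 1) : ℚ) (1 / (d - 2 * n)) ≤ P.c j) :
    VeryGeneral fun x => ∀ γ : RatCurve n, 1 ≤ γ.e → (∀ j, γ.pull (P.ℓ j) ≠ 0) → γ.Through x →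
      0 ≤ P.degC γ (P.multMin γ) := by
  refine (estimate hn (by omega) P).mono fun x _ h γ h1 h2 h3 => ?_
  have hest := h γ h1 h2 h3
  obtain ⟨c, hcdef⟩ : ∃ c : ℚ, c = max (2 / (d - n + 1) : ℚ) (1 / (d - 2 * n)) := ⟨_, rfl⟩
  rw [← hcdef] at hc
  have hdr : (2 * n + 3 : ℝ) ≤ d := by exact_mod_cast hd
  have hnr : (1 : ℝ) ≤ n := by exact_mod_cast hn
  have hcr : (c : ℝ) = max (2 / (d - n + 1) : ℝ) (1 / (d - 2 * n)) := by
    rw [hcdef]
    push_cast
    rfl
  have hp1 : (0 : ℝ) < d - n + 1 := by linarith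
  have hp2 : (0 : ℝ) < d - 2 * n := by linarith
  have hc1 : 2 ≤ (c : ℝ) * (d - n + 1) := by
    have : 2 / (d - n + 1 : ℝ) ≤ c := by rw [hcr]; exact le_max_left _ _
    rwa [div_le_iff₀ hp1] at this
  have hc2 : 1 ≤ (c : ℝ) * (d - 2 * n) := by
    have : 1 / (d - 2 * n : ℝ) ≤ c := by rw [hcr]; exact le_max_right _ _
    rwa [div_le_iff₀ hp2] at this
  have hc3 : (c : ℝ) ≤ 1 / 2 := by
    rw [hcr]
    refine max_le ?_ ?_
    · rw [div_le_iff₀ hp1]
      linarith
    · rw [div_le_iff₀ hp2]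
      linarith
  have hc0 : 0 < (c : ℝ) := by
    by_contra hcon
    have : (c : ℝ) * (d - 2 * n) ≤ 0 := mul_nonpos_of_nonpos_of_nonneg (not_lt.1 hcon) hp2.le
    linarith
  have hcj : ∀ j, 1 - (1 - (c : ℝ)) ≤ P.c j := by
    intro j
    have : (c : ℝ) ≤ P.c j := by exact_mod_cast hc j
    linarith
  rcases h1.eq_or_lt with he | he
  · refine low_A P γ h1 h2 (by omega) hest (by linarith) hcj ?_
    rw [← he]
    push_cast
    linarith
  · have he' : (2 : ℝ) ≤ γ.e := by exact_mod_cast he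
    refine low_B P γ h2 hest hcj (q := 1) ?_ ?_ ?_
    · push_cast
      linarith
    · push_cast
      linarith
    · push_cast
      have h4 : (0 : ℝ) ≤ (γ.e - 2) * (d - 2 * n - 2) :=
        mul_nonneg (by linarith) (by linarith)
      have h5 : 0 ≤ c * ((γ.e - 2) * (d - 2 * n - 2) : ℝ) := mul_nonneg hc0.le h4
      nlinarith

/-- the lower bounds for the literal divisor -/
theorem lower_lit (hn : 1 ≤ n) (hd : n + 1 ≤ d) (P : HypOrbifold n d)
    (hc : ∀ j, (2 / (d - n + 1) : ℚ) ≤ P.c j) :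
    VeryGeneral fun x => ∀ γ : RatCurve n, 1 ≤ γ.e → (∀ j, γ.pull (P.ℓ j) ≠ 0) → γ.Through x →
      0 ≤ P.degC γ (P.multLit γ) := by
  refine (estimate hn hd P).mono fun x _ h γ h1 h2 h3 => ?_
  have hest := h γ h1 h2 h3
  have hdr : (n + 1 : ℚ) ≤ d := by exact_mod_cast hd
  have hp1 : (0 : ℚ) < d - n + 1 := by linarith
  refine low_lit P γ h1 h2 hd hest (c := 2 / (d - n + 1)) (by positivity) ?_ hc ?_
  · rw [div_le_one hp1]
    linarith
  · rw [mul_div_cancel₀ _ hp1.ne']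

theorem lit_iff (hn : 1 ≤ n) (P : HypOrbifold n d) {c : ℚ} (hc0 : 0 < c) (hc1 : c ≤ 1)
    (hc : ∀ j, P.c j = c) : P.IsUniruledWith P.multLit ↔ (d - n + 1) * c < 2 := by
  constructor
  · intro h
    by_contra hcon
    have h2 := not_lt.1 hcon
    have hd : n + 1 ≤ d := by
      by_contra hd
      have h3 : (d : ℚ) ≤ n := by exact_mod_cast (by omega : d ≤ n)
      nlinarith
    have hdr : (n + 1 : ℚ) ≤ d := by exact_mod_cast hd
    obtain ⟨x, _, ⟨γ, h1, _, h2, h3, h4⟩, h5⟩ :=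
      VeryGeneral.exists_common h (lower_lit hn hd P (fun j => by
        rw [hc, div_le_iff₀ (by linarith), mul_comm]
        exact h2))
    exact absurd (h5 γ h1 h2 h4) (not_le.2 h3)
  · intro h
    refine (lines hn P (fun j => (hc j).le) hc0.le hc1 ?_).2
    rcases le_or_gt n d with h3 | h3
    · rw [Nat.cast_sub h3]
      linarith
    · have h4 : d - n = 0 := by omega
      rw [h4]
      norm_num
      linarith

theorem min_iff_big (hn : 1 ≤ n) (hd : 2 * n + 3 ≤ d) (P : HypOrbifold n d) {c : ℚ}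
    (hc0 : 0 < c) (hc1 : c ≤ 1) (hc : ∀ j, P.c j = c) :
    P.IsUniruledWith P.multMin ↔ c < 2 / (d - n + 1) ∨ c < 1 / (d - 2 * n) := by
  have hdr : (2 * n + 3 : ℚ) ≤ d := by exact_mod_cast hd
  have hnr : (1 : ℚ) ≤ n := by exact_mod_cast hn
  have hp1 : (0 : ℚ) < d - n + 1 := by linarith
  have hp2 : (0 : ℚ) < d - 2 * n := by linarith
  constructor
  · intro h
    by_contra hcon
    push Not at hcon
    obtain ⟨x, _, ⟨γ, h1, _, h2, h3, h4⟩, h5⟩ :=
      VeryGeneral.exists_common h (lower_big hn hd P (fun j => by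
        rw [hc]
        exact max_le hcon.1 hcon.2))
    exact absurd (h5 γ h1 h2 h4) (not_le.2 h3)
  · have hlines : c < 2 / (d - n + 1) → P.IsUniruledWith P.multMin := by
      intro h
      rw [lt_div_iff₀ hp1] at h
      refine (lines hn P (fun j => (hc j).le) hc0.le hc1 ?_).1
      rw [Nat.cast_sub (by omega)]
      linarith
    rintro (h | h)
    · exact hlines h
    · rcases hn.eq_or_lt with hn1 | hn2
      · apply hlines
        refine h.trans_le ?_
        rw [div_le_div_iff₀ hp2 hp1]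
        rw [← hn1] at hdr ⊢
        push_cast at *
        linarith
      · rw [lt_div_iff₀ hp2] at h
        exact uniruled_conic hn2 (by omega) P hc0.le hc1 (fun j => (hc j).le) (by linarith)

theorem min_iff_small (hn : 1 ≤ n) (hE : d ≤ n + 1 ∨ (n + 1) % (d - n - 1) ≤ 2)
    (P : HypOrbifold n d) {c : ℚ} (hc0 : 0 < c) (hc1 : c ≤ 1) (hc : ∀ j, P.c j = c) :
    P.IsUniruledWith P.multMin ↔ d * c < n + 1 := by
  have hK := degKD_eq P hc
  constructor
  · intro h
    have := uniruled_imp hn P h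
    linarith
  intro h
  have hc' : ∀ j, P.c j ≤ c := fun j => (hc j).le
  have hlines : (1 + (d - n : ℕ) : ℚ) * c < 2 → P.IsUniruledWith P.multMin :=
    fun h => (lines hn P hc' hc0.le hc1 h).1
  rcases le_or_gt d n with hd1 | hd1
  · apply hlines
    rw [Nat.sub_eq_zero_of_le hd1]
    norm_num
    linarith
  rcases hn.eq_or_lt with hn1 | hn2
  · apply hlines
    rw [Nat.cast_sub hd1.le]
    rw [← hn1] at h ⊢
    push_cast at *
    linarith
  rcases (by omega : d = n + 1 ∨ n + 2 ≤ d) with hd2 | hd2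
  · apply hlines
    have h2 : d - n = 1 := by omega
    rw [h2]
    have h3 : (d : ℚ) = n + 1 := by rw [hd2]; push_cast; ring
    rw [h3] at h
    have h4 : (0 : ℚ) < n + 1 := by positivity
    have h5 : c < 1 := by
      by_contra hcon
      nlinarith
    push_cast
    linarith
  have hE' : (n + 1) % (d - n - 1) ≤ 2 := hE.resolve_left (by omega)
  have hcd : (d - n - 1 : ℚ) < d * (1 - c) := by linarith
  obtain ⟨D, hD⟩ : ∃ D, D = d - n - 1 := ⟨_, rfl⟩
  rw [← hD] at hE'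
  have hdD : d - (n + 1) = D := by omega
  have hdD' : d = D + (n + 1) := by omega
  rcases eq_or_ne d (2 * n + 2) with hd3 | hd3
  · refine uniruled_conic hn2 (by omega) P hc0.le hc1 hc' ?_
    have h3 : (d : ℚ) = 2 * n + 2 := by rw [hd3]; push_cast; ring
    rw [h3] at h ⊢
    have h4 : (0 : ℚ) < n + 1 := by positivity
    have h5 : c < 1 / 2 := by
      by_contra hcon
      push Not at hcon
      nlinarith
    linarith
  rcases (by omega : D = 1 ∨ 2 ≤ D) with hD1 | hD2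
  · refine uniruled_split hd2 P hc0.le hc1 hc' (e := n) (r := 0) (by norm_num) (by omega) ?_
      (Or.inl rfl) hcd
    rw [hdD, hD1]
    omega
  · have hQ := Nat.div_add_mod (n + 1) D
    have hρ := Nat.mod_lt (n + 1) (by omega : D > 0)
    obtain ⟨Q, hQdef⟩ : ∃ Q, Q = (n + 1) / D := ⟨_, rfl⟩
    obtain ⟨ρ, hρdef⟩ : ∃ ρ, ρ = (n + 1) % D := ⟨_, rfl⟩
    rw [← hQdef, ← hρdef] at hQ
    rw [← hρdef] at hE' hρ
    refine uniruled_split hd2 P hc0.le hc1 hc' (e := Q + 1) (r := 2 - ρ) (by omega) ?_ ?_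
      (Or.inr (by omega)) hcd
    · -- r < e
      rcases (by omega : Q = 0 ∨ Q = 1 ∨ 2 ≤ Q) with h0 | h1 | h2
      · rw [h0] at hQ
        omega
      · rw [h1] at hQ
        omega
      · omega
    · rw [hdD, mul_add]
      omega

/-- the numbers in the critical case -/
theorem exists_crit {D q ρ : ℕ} (hq : 1 ≤ q) (hρ : 3 ≤ ρ) (hρD : ρ < D) :
    ∃ u : ℚ, 0 < u ∧ u < 1 ∧ u * (D * q + 2) ≤ D ∧ u * q ≤ 1 ∧ 1 ≤ u * (q + 1) ∧
      2 ≤ (1 - u * q) * ((q + 1) * (D - ρ + 2)) ∧ (D : ℚ) < (D * q + ρ) * u := by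
  obtain ⟨k, rfl⟩ := Nat.exists_eq_add_of_lt hρD
  have hq' : (1 : ℚ) ≤ q := by exact_mod_cast hq
  have hρ' : (3 : ℚ) ≤ ρ := by exact_mod_cast hρ
  have hk' : (0 : ℚ) ≤ k := Nat.cast_nonneg _
  push_cast
  obtain ⟨q', hqq⟩ : ∃ q' : ℚ, q' = q := ⟨_, rfl⟩
  obtain ⟨r, hr⟩ : ∃ r : ℚ, r = ρ := ⟨_, rfl⟩
  obtain ⟨t, ht⟩ : ∃ t : ℚ, t = k := ⟨_, rfl⟩
  rw [← hqq, ← hr, ← ht]
  rw [← hqq] at hq'
  rw [← hr] at hρ'
  rw [← ht] at hk'
  have hD : (4 : ℚ) ≤ r + t + 1 := by linarith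
  have hq0 : (0 : ℚ) < q' := by linarith
  have e1 : (r + t + 1 - r + 2 : ℚ) = t + 3 := by ring
  rw [e1]
  have hA : (0 : ℚ) < (r + t + 1) * q' + 2 := by positivity
  have hB : (0 : ℚ) < (q' + 1) * (t + 3) := by positivity
  let u1 : ℚ := (r + t + 1) / ((r + t + 1) * q' + 2)
  let u2 : ℚ := (1 - 2 / ((q' + 1) * (t + 3))) / q'
  have h2B : 2 / ((q' + 1) * (t + 3)) ≤ 1 / 3 := by
    rw [div_le_div_iff₀ hB (by norm_num)]
    nlinarith
  have hu1 : u1 * ((r + t + 1) * q' + 2) = r + t + 1 := by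
    simp only [u1]
    field_simp
  have hu2 : u2 * q' = 1 - 2 / ((q' + 1) * (t + 3)) := by
    simp only [u2]
    field_simp
  have hu1p : 0 < u1 := by positivity
  have hu2p : 0 < u2 := by
    apply div_pos _ hq0
    linarith
  have hu1lt : u1 < 1 := by
    simp only [u1]
    rw [div_lt_one hA]
    nlinarith
  refine ⟨min u1 u2, lt_min hu1p hu2p, (min_le_left _ _).trans_lt hu1lt, ?_, ?_, ?_, ?_, ?_⟩
  · calc min u1 u2 * ((r + t + 1) * q' + 2) ≤ u1 * ((r + t + 1) * q' + 2) :=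
        mul_le_mul_of_nonneg_right (min_le_left _ _) hA.le
      _ = _ := hu1
  · calc min u1 u2 * q' ≤ u2 * q' := mul_le_mul_of_nonneg_right (min_le_right _ _) hq0.le
      _ ≤ 1 := by
        rw [hu2]
        have : (0 : ℚ) ≤ 2 / ((q' + 1) * (t + 3)) := by positivity
        linarith
  · rw [min_mul_of_nonneg _ _ (by linarith : (0 : ℚ) ≤ q' + 1)]
    refine le_min ?_ ?_
    · simp only [u1]
      rw [div_mul_eq_mul_div, le_div_iff₀ hA]
      nlinarith
    · have h3 : u2 * (q' + 1) = (q' + 1 - 2 / (t + 3)) / q' := by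
        simp only [u2]
        field_simp
      rw [h3, le_div_iff₀ hq0]
      have h4 : 2 / (t + 3) ≤ 1 := by
        rw [div_le_one (by positivity)]
        linarith
      linarith
  · have h3 : 2 / ((q' + 1) * (t + 3)) ≤ 1 - min u1 u2 * q' := by
      have : min u1 u2 * q' ≤ u2 * q' := mul_le_mul_of_nonneg_right (min_le_right _ _) hq0.le
      linarith
    rw [div_le_iff₀ hB] at h3
    exact h3
  · have hd : (0 : ℚ) < (r + t + 1) * q' + r := by positivity
    rw [mul_comm, min_mul_of_nonneg _ _ hd.le]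
    refine lt_min ?_ ?_
    · simp only [u1]
      rw [div_mul_eq_mul_div, lt_div_iff₀ hA]
      have : (r + t + 1) * ((r + t + 1) * q' + 2) < (r + t + 1) * ((r + t + 1) * q' + r) :=
        mul_lt_mul_of_pos_left (by linarith) (by linarith)
      linarith
    · simp only [u2]
      rw [div_mul_eq_mul_div, lt_div_iff₀ hq0]
      have h3 : 2 * ((r + t + 1) * q' + r) < r * ((q' + 1) * (t + 3)) := by
        have h4 : 0 < (t + 1) * (q' * (r - 2) + r) := by
          have : 0 < q' * (r - 2) := mul_pos hq0 (by linarith)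
          positivity
        nlinarith
      have h4 : 2 / ((q' + 1) * (t + 3)) * ((r + t + 1) * q' + r) < r := by
        rw [div_mul_eq_mul_div, div_lt_iff₀ hB]
        exact h3
      nlinarith

/-- in the critical cases there is a weakly uniruled pair that is not uniruled -/
theorem exists_crit_pair (hn : 1 ≤ n) (hd : n + 2 ≤ d) (hE : 3 ≤ (n + 1) % (d - n - 1)) :
    ∃ c : ℚ, 0 < c ∧ c < 1 ∧ d * c < n + 1 ∧ ∀ P : HypOrbifold n d, (∀ j, c ≤ P.c j) →
      VeryGeneral fun x => ∀ γ : RatCurve n, 1 ≤ γ.e → (∀ j, γ.pull (P.ℓ j) ≠ 0) → γ.Through x →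
        0 ≤ P.degC γ (P.multMin γ) ∧ 0 ≤ P.degC γ (P.multLit γ) := by
  obtain ⟨D, hD⟩ : ∃ D, D = d - n - 1 := ⟨_, rfl⟩
  rw [← hD] at hE
  have hD0 : 0 < D := by omega
  have hQ := Nat.div_add_mod (n + 1) D
  have hρ := Nat.mod_lt (n + 1) hD0
  obtain ⟨Q, hQdef⟩ : ∃ Q, Q = (n + 1) / D := ⟨_, rfl⟩
  obtain ⟨ρ, hρdef⟩ : ∃ ρ, ρ = (n + 1) % D := ⟨_, rfl⟩
  rw [← hQdef, ← hρdef] at hQ
  rw [← hρdef] at hE hρ
  obtain ⟨u, hu0, hu1, h1, h2, h3, h4, h5⟩ := exists_crit (q := Q + 1) (by omega) hE hρ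
  have hdD : d = D * (Q + 1) + ρ := by
    rw [mul_add]
    omega
  have hdq : (d : ℚ) = D * (Q + 1) + ρ := by exact_mod_cast hdD
  have hnq : (n : ℚ) + 1 = d - D := by
    have : d = D + (n + 1) := by omega
    have h6 : (d : ℚ) = D + (n + 1) := by exact_mod_cast this
    linarith
  refine ⟨1 - u, by linarith, by linarith, ?_, fun P hc => ?_⟩
  · rw [hnq]
    have h6 : (D : ℚ) < d * u := by
      rw [hdq]
      push_cast at h5
      exact h5
    linarith
  refine (estimate hn (by omega) P).mono fun x _ h γ g1 g2 g3 => ?_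
  have hest := h γ g1 g2 g3
  have hcr : ∀ j, 1 - (u : ℝ) ≤ P.c j := by
    intro j
    exact_mod_cast hc j
  have hDr : (d : ℝ) - n - 1 = D := by
    have h6 : (n : ℝ) + 1 = d - D := by exact_mod_cast hnq
    linarith
  have hdr : (d : ℝ) = D * (Q + 1) + ρ := by exact_mod_cast hdq
  have k1 : (u : ℝ) * (D * (Q + 1) + 2) ≤ D := by
    push_cast at h1
    exact_mod_cast h1
  have k2 : (u : ℝ) * (Q + 1) ≤ 1 := by
    push_cast at h2
    exact_mod_cast h2
  have k3 : 1 ≤ (u : ℝ) * (Q + 1 + 1) := by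
    push_cast at h3
    exact_mod_cast h3
  have k4 : 2 ≤ (1 - (u : ℝ) * (Q + 1)) * ((Q + 1 + 1) * (D - ρ + 2)) := by
    push_cast at h4
    exact_mod_cast h4
  have hu0' : (0 : ℝ) < u := by exact_mod_cast hu0
  refine ⟨?_, low_lit P γ g1 g2 (by omega) hest (c := 1 - u) (by linarith) (by linarith) hc ?_⟩
  swap
  · have h6 : (d : ℚ) - n + 1 = D + 2 := by linarith
    rw [h6]
    have h7 : u * (D + 2) ≤ u * (D * (Q + 1) + 2) := by
      apply mul_le_mul_of_nonneg_left _ hu0.le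
      have h8 : (0 : ℚ) ≤ D * Q := by positivity
      linarith
    have h9 : u * (D * (Q + 1) + 2) ≤ D := by
      push_cast at h1
      exact h1
    linarith
  rcases le_or_gt γ.e (Q + 1) with he | he
  · refine low_A P γ g1 g2 (by omega) hest hu0'.le hcr ?_
    rw [hDr]
    have he' : (γ.e : ℝ) ≤ Q + 1 := by exact_mod_cast he
    have hD' : (0 : ℝ) ≤ D := Nat.cast_nonneg _
    calc (u : ℝ) * (D * γ.e + 2) ≤ u * (D * (Q + 1) + 2) := by
          apply mul_le_mul_of_nonneg_left _ hu0'.le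
          have := mul_le_mul_of_nonneg_left he' hD'
          linarith
      _ ≤ D := k1
  · refine low_B P γ g2 hest hcr (q := Q + 1) (by push_cast; exact k2) (by push_cast; exact k3) ?_
    rw [hDr]
    push_cast
    have he' : (Q + 1 + 1 : ℝ) ≤ γ.e := by exact_mod_cast he
    have hDρ : (0 : ℝ) ≤ D - ρ := by
      have : (ρ : ℝ) ≤ D := by exact_mod_cast hρ.le
      linarith
    have k5 : (Q + 1 + 1 : ℝ) * (D - ρ + 2) ≤ (Q + 1 + 1) * (D * γ.e + 2) - d * γ.e := by
      rw [hdr]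
      have := mul_le_mul_of_nonneg_right he' hDρ
      nlinarith
    have k6 := mul_le_mul_of_nonneg_left k5 (by linarith : (0 : ℝ) ≤ 1 - u * (Q + 1))
    linarith

end Pool.Agent.KS6_82.OU
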